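import Pool.Agent.R801.AB.Defs

/-!
# Basic facts on affine signed permutations
-/

namespace Pool.Agent.R801.AB

open Finset

variable {n : ℕ} {w u : Equiv.Perm ℤ}

lemma per_pos (n : ℕ) : 0 < per n := by unfold per; positivity

lemma IsAff.map_zero (h : IsAff n w) : w 0 = 0 := by
  have := h.1 0
  simp at this
  omega

lemma IsAff.add_mul (h : IsAff n w) (i k : ℤ) : w (i + k * per n) = w i + k * per n := by
  induction k using Int.induction_on with
  | zero => simp
  | succ k ih =>
    have e : i + ((k : ℤ) + 1) * per n = (i + k * per n) + per n := by ring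
    rw [e, h.2, ih]; ring
  | pred k ih =>
    have e : i + (-(k : ℤ)) * per n = (i + (-(k : ℤ) - 1) * per n) + per n := by ring
    rw [e, h.2] at ih
    have : (-(k : ℤ) - 1) * per n = (-(k : ℤ)) * per n - per n := by ring
    linarith

lemma IsAff.neg (h : IsAff n w) (i : ℤ) : w (-i) = -w i := h.1 i

lemma IsAff.neg_add_mul (h : IsAff n w) (i k : ℤ) : w (-i + k * per n) = -w i + k * per n := by
  rw [h.add_mul, h.neg]

lemma IsAff.map_half (h : IsAff n w) (k : ℤ) : w (k * (n + 1)) = k * (n + 1) := by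
  have h1 : w ((n : ℤ) + 1) = n + 1 := by
    have a := h.neg_add_mul ((n : ℤ) + 1) 1
    have e : -((n : ℤ) + 1) + 1 * per n = (n : ℤ) + 1 := by unfold per; ring
    rw [e] at a
    unfold per at a
    linarith
  rcases Int.even_or_odd' k with ⟨c, rfl | rfl⟩
  · have e : 2 * c * ((n : ℤ) + 1) = 0 + c * per n := by unfold per; ring
    rw [e, h.add_mul, h.map_zero]
  · have e : (2 * c + 1) * ((n : ℤ) + 1) = ((n : ℤ) + 1) + c * per n := by unfold per; ring
    rw [e, h.add_mul, h1]

/-- Injectivity on classes. -/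
lemma IsAff.inj_pos (h : IsAff n w) {x y k : ℤ} (hx : x ∈ Icc (1 : ℤ) n) (hy : y ∈ Icc (1 : ℤ) n)
    (e : w x = w y + k * per n) : x = y ∧ k = 0 := by
  rw [← h.add_mul] at e
  have e' := w.injective e
  rw [mem_Icc] at hx hy
  have hk : k = 0 := by
    have hN := per_pos n
    have h1 : k * per n = x - y := by linarith
    have h2 : x - y < per n := by unfold per; omega
    have h3 : -per n < x - y := by unfold per; omega
    by_contra hk
    rcases lt_or_gt_of_ne hk with hk | hk
    · nlinarith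
    · nlinarith
  subst hk
  simp at e'
  exact ⟨e', rfl⟩

lemma IsAff.inj_neg (h : IsAff n w) {x y k : ℤ} (hx : x ∈ Icc (1 : ℤ) n) (hy : y ∈ Icc (1 : ℤ) n)
    (e : w x = -w y + k * per n) : False := by
  rw [← h.neg_add_mul] at e
  have e' := w.injective e
  rw [mem_Icc] at hx hy
  have hN := per_pos n
  have h1 : k * per n = x + y := by linarith
  have h2 : x + y < per n := by unfold per; omega
  have h3 : 0 < x + y := by omega
  have hk0 : 0 < k := by
    by_contra hk
    push Not at hk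
    nlinarith
  nlinarith

lemma IsAff.ne_half (h : IsAff n w) {x : ℤ} (hx : x ∈ Icc (1 : ℤ) n) (k : ℤ) :
    w x ≠ k * (n + 1) := by
  intro e
  rw [← h.map_half k] at e
  have e' := w.injective e
  rw [mem_Icc] at hx
  have h0 : 0 < (n : ℤ) + 1 := by positivity
  have h1 : 0 < k := by
    by_contra hk
    push Not at hk
    nlinarith
  nlinarith

lemma IsAff.ne_zero (h : IsAff n w) {x : ℤ} (hx : x ∈ Icc (1 : ℤ) n) : w x ≠ 0 := by
  have := h.ne_half hx 0
  simpa using this

lemma IsAff.abs_inj (h : IsAff n w) {x y : ℤ} (hx : x ∈ Icc (1 : ℤ) n) (hy : y ∈ Icc (1 : ℤ) n)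
    (e : |w x| = |w y|) : x = y := by
  rcases abs_eq_abs.mp e with e | e
  · have : w x = w y + 0 * per n := by rw [e]; ring
    exact (h.inj_pos hx hy this).1
  · have : w x = -w y + 0 * per n := by rw [e]; ring
    exact (h.inj_neg hx hy this).elim

lemma IsAff.map_abs (h : IsAff n w) (z : ℤ) : |w (|z|)| = |w z| := by
  rcases abs_choice z with e | e
  · rw [e]
  · rw [e, h.neg, abs_neg]

lemma isAff_one (n : ℕ) : IsAff n 1 := by
  constructor <;> intro i <;> simp

lemma IsAff.mul (h : IsAff n w) (h' : IsAff n u) : IsAff n (w * u) := by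
  constructor
  · intro i; simp [h'.1, h.1]
  · intro i; simp [h'.2, h.2]

/-- If `w` maps a set `S ⊆ [n]` of `M` elements into `±[M]`, all other elements of `[n]`
are mapped outside `±[M]`. -/
lemma IsAff.pigeon (h : IsAff n w) {S : Finset ℤ} {M : ℤ} (hS : S ⊆ Icc (1 : ℤ) n)
    (hM : ∀ y ∈ S, |w y| ≤ M) (hc : (M : ℤ) ≤ #S) {z : ℤ} (hz : z ∈ Icc (1 : ℤ) n) (hzS : z ∉ S) :
    M < |w z| := by
  by_contra hcon
  push Not at hcon
  have hinj : Set.InjOn (fun y => |w y|) (insert z S : Finset ℤ) := by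
    intro a ha b hb e
    have ha' : a ∈ Icc (1 : ℤ) n := by
      rcases mem_insert.mp (mem_coe.mp ha) with rfl | ha
      · exact hz
      · exact hS ha
    have hb' : b ∈ Icc (1 : ℤ) n := by
      rcases mem_insert.mp (mem_coe.mp hb) with rfl | hb
      · exact hz
      · exact hS hb
    exact h.abs_inj ha' hb' e
  have himg : (insert z S).image (fun y => |w y|) ⊆ Icc (1 : ℤ) M := by
    intro v hv
    rw [mem_image] at hv
    obtain ⟨a, ha, rfl⟩ := hv
    have ha' : a ∈ Icc (1 : ℤ) n := by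
      rcases mem_insert.mp ha with rfl | ha
      · exact hz
      · exact hS ha
    have h1 : 0 < |w a| := abs_pos.mpr (h.ne_zero ha')
    have h2 : |w a| ≤ M := by
      rcases mem_insert.mp ha with rfl | ha
      · exact hcon
      · exact hM a ha
    rw [mem_Icc]; constructor <;> omega
  have hcard := card_le_card himg
  rw [card_image_of_injOn hinj, card_insert_of_notMem hzS, Int.card_Icc] at hcard
  omega

/-- good, in terms of `[j]` only. -/
def gd (w : Equiv.Perm ℤ) (j : ℤ) : Prop := ∀ y ∈ Icc (1 : ℤ) j, |w y| ≤ j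

/-- number of negatives -/
noncomputable def ng (w : Equiv.Perm ℤ) (j : ℤ) : ℕ := #{y ∈ Icc (1 : ℤ) j | w y < 0}

/-- If `w` is good at `m` then elements beyond `m` are mapped beyond `m`. -/
lemma IsAff.gd_gt (h : IsAff n w) {m z : ℤ} (hm : gd w m) (hm0 : 0 ≤ m) (hz : z ∈ Icc (1 : ℤ) n)
    (hzm : m < z) : m < |w z| := by
  rw [mem_Icc] at hz
  refine h.pigeon (S := Icc (1 : ℤ) m) (M := m) ?_ hm ?_ (mem_Icc.mpr hz) ?_
  · intro y hy; rw [mem_Icc] at *; omega
  · rw [Int.card_Icc]; omega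
  · rw [mem_Icc]; omega

lemma IsAff.gd_surj (h : IsAff n w) {m c : ℤ} (hm : gd w m) (hmn : m ≤ n)
    (hc : c ∈ Icc (1 : ℤ) m) : ∃ x ∈ Icc (1 : ℤ) m, |w x| = c := by
  have hsub : ∀ y ∈ Icc (1 : ℤ) m, y ∈ Icc (1 : ℤ) n := by
    intro y hy; rw [mem_Icc] at *; omega
  have hinj : Set.InjOn (fun y => |w y|) (Icc (1 : ℤ) m : Finset ℤ) := by
    intro a ha b hb e
    exact h.abs_inj (hsub a (mem_coe.mp ha)) (hsub b (mem_coe.mp hb)) e
  have himg : (Icc (1 : ℤ) m).image (fun y => |w y|) = Icc (1 : ℤ) m := by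
    apply eq_of_subset_of_card_le
    · intro v hv
      rw [mem_image] at hv
      obtain ⟨a, ha, rfl⟩ := hv
      have h1 : 0 < |w a| := abs_pos.mpr (h.ne_zero (hsub a ha))
      have h2 : |w a| ≤ m := hm a ha
      rw [mem_Icc]; constructor <;> omega
    · rw [card_image_of_injOn hinj]
  rw [← himg, mem_image] at hc
  exact hc

lemma IsAff.good_iff (h : IsAff n w) {j : ℤ} (hj : j ≤ n) (hj0 : 0 ≤ j) : Good w j ↔ gd w j := by
  constructor
  · intro hg y hy
    rw [mem_Icc] at hy
    have : y ∈ pm j := ⟨by omega, by rw [abs_le]; omega⟩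
    exact (hg.mapsTo this).2
  · intro hg
    refine ⟨?_, w.injective.injOn, ?_⟩
    · intro x hx
      obtain ⟨hx0, hxj⟩ := hx
      have hx1 : |x| ∈ Icc (1 : ℤ) j := by
        rw [mem_Icc]; exact ⟨by have := abs_pos.mpr hx0; omega, hxj⟩
      have hx2 : |x| ∈ Icc (1 : ℤ) n := by
        rw [mem_Icc] at *; omega
      have h1 := hg _ hx1
      rw [h.map_abs] at h1
      refine ⟨?_, h1⟩
      have := abs_pos.mpr (h.ne_zero hx2)
      rw [h.map_abs] at this
      exact abs_pos.mp this
    · intro c hc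
      obtain ⟨hc0, hcj⟩ := hc
      have hc1 : |c| ∈ Icc (1 : ℤ) j := by
        rw [mem_Icc]; exact ⟨by have := abs_pos.mpr hc0; omega, hcj⟩
      obtain ⟨x, hx, hxc⟩ := h.gd_surj hg hj hc1
      rw [mem_Icc] at hx
      rcases abs_eq_abs.mp hxc with e | e
      · exact ⟨x, ⟨by omega, by rw [abs_le]; omega⟩, e⟩
      · exact ⟨-x, ⟨by omega, by rw [abs_le]; omega⟩, by rw [h.neg, e, neg_neg]⟩

end Pool.Agent.R801.AB
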