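import Mathlib

/-!
# Affine signed permutations, cost, blocks (definitions for `MP_0e82d3_co`)
-/

namespace Pool.Agent.R801.AB

open Finset

/-- The period `N = 2n + 2`. -/
def per (n : ℕ) : ℤ := 2 * (n : ℤ) + 2

/-- Affine signed permutations (the group of type affine `C`): bijections `w` of `ℤ` with
`w (-i) = - w i` and `w (i + N) = w i + N`. -/
def IsAff (n : ℕ) (w : Equiv.Perm ℤ) : Prop :=
  (∀ i, w (-i) = -w i) ∧ ∀ i, w (i + per n) = w i + per n

/-- Membership in the subgroup of type affine `B`: the number of `i > 0` with `w i < 0` is even. -/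
def InB (n : ℕ) (w : Equiv.Perm ℤ) : Prop :=
  IsAff n w ∧ Even (Set.ncard {i : ℤ | 0 < i ∧ w i < 0})

/-- Total displacement. -/
noncomputable def tvd (n : ℕ) (w : Equiv.Perm ℤ) : ℤ := ∑ i ∈ Icc (1 : ℤ) n, |w i - i|

/-- `t` is the bijection `⟨(i j)⟩`: it exchanges `σ i` and `σ j` for every `σ` in the group
generated by `x ↦ -x` and `x ↦ x + N`, that is for the maps `x ↦ ± x + k N`, and fixes every
other integer. -/
def IsSwap (n : ℕ) (i j : ℤ) (t : Equiv.Perm ℤ) : Prop :=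
  i ≠ j ∧
  (∀ k : ℤ, t (i + k * per n) = j + k * per n ∧ t (j + k * per n) = i + k * per n ∧
    t (-i + k * per n) = -j + k * per n ∧ t (-j + k * per n) = -i + k * per n) ∧
  ∀ x : ℤ, (∀ k : ℤ, x ≠ i + k * per n ∧ x ≠ j + k * per n ∧
    x ≠ -i + k * per n ∧ x ≠ -j + k * per n) → t x = x

/-- The set `T_W` of reflections of the group `W` of type affine `B`: the `⟨(i j)⟩` in `W`. -/
def Refl (n : ℕ) : Set (Equiv.Perm ℤ) := {t | InB n t ∧ ∃ i j, IsSwap n i j t}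

/-- The costs of all factorizations of `w` into elements of `T_W`; an element `t` costs
`tvd t / 2`. -/
def costs (n : ℕ) (w : Equiv.Perm ℤ) : Set ℚ :=
  {c | ∃ l : List (Equiv.Perm ℤ), (∀ t ∈ l, t ∈ Refl n) ∧ l.prod = w ∧
    c = (l.map fun t => (tvd n t : ℚ) / 2).sum}

/-- `±[j]` -/
def pm (j : ℤ) : Set ℤ := {x | x ≠ 0 ∧ |x| ≤ j}

/-- `j` is good for `w`: `w` maps `±[j]` bijectively onto itself. -/
def Good (w : Equiv.Perm ℤ) (j : ℤ) : Prop := Set.BijOn w (pm j) (pm j)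

/-- `j` is very good for `w`: it is good and the number of `i ∈ [j]` with `w i < 0` is even. -/
def VeryGood (w : Equiv.Perm ℤ) (j : ℤ) : Prop :=
  Good w j ∧ Even (Set.ncard {i : ℤ | 1 ≤ i ∧ i ≤ j ∧ w i < 0})

/-- `1 + #{good j ∈ [n-1]}` -/
noncomputable def blC (n : ℕ) (w : Equiv.Perm ℤ) : ℕ :=
  1 + Set.ncard {j : ℤ | 1 ≤ j ∧ j ≤ (n : ℤ) - 1 ∧ Good w j}

/-- `1 + #{very good j ∈ [n-1]}` -/
noncomputable def blB (n : ℕ) (w : Equiv.Perm ℤ) : ℕ :=
  1 + Set.ncard {j : ℤ | 1 ≤ j ∧ j ≤ (n : ℤ) - 1 ∧ VeryGood w j}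

end Pool.Agent.R801.AB
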