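import Pool.Agent.R801.AB.Step

/-!
# The cost of affine signed permutations of type `B`
-/

namespace Pool.Agent.R801.AB

open Finset

variable {n : ℕ} {w u t : Equiv.Perm ℤ}

lemma IsSwap.moved {a b : ℤ} (h : IsSwap n a b t) {i : ℤ} (hi : t i ≠ i) :
    ∃ k : ℤ, i = a + k * per n ∨ i = b + k * per n ∨ i = -a + k * per n ∨ i = -b + k * per n := by
  by_contra hcon
  push Not at hcon
  exact hi (h.2.2 i hcon)

lemma IsSwap.inv {a b : ℤ} (h : IsSwap n a b t) (x : ℤ) : t (t x) = x := by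
  by_cases hx : t x = x
  · rw [hx, hx]
  · obtain ⟨k, rfl | rfl | rfl | rfl⟩ := h.moved hx
    · rw [(h.2.1 k).1, (h.2.1 k).2.1]
    · rw [(h.2.1 k).2.1, (h.2.1 k).1]
    · rw [(h.2.1 k).2.2.1, (h.2.1 k).2.2.2]
    · rw [(h.2.1 k).2.2.2, (h.2.1 k).2.2.1]

lemma refl_ne_neg (ht : t ∈ Refl n) {x : ℤ} (hx : x ∈ Icc (1 : ℤ) n) : t x ≠ -x := by
  intro hneg
  obtain ⟨⟨ha, hev⟩, a, b, h⟩ := ht
  have hN := per_pos n
  have hNn : per n = 2 * (n : ℤ) + 2 := rfl
  have hx' := mem_Icc.mp hx
  have hAB : (∃ c : ℤ, a = x + c * per n ∨ a = -x + c * per n) ∧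
      (∃ c : ℤ, b = x + c * per n ∨ b = -x + c * per n) := by
    obtain ⟨k, hk⟩ := h.moved (i := x) (by omega)
    rcases hk with hk | hk | hk | hk
    · have := (h.2.1 k).1
      rw [← hk, hneg] at this
      exact ⟨⟨-k, Or.inl (by linarith)⟩, ⟨-k, Or.inr (by linarith)⟩⟩
    · have := (h.2.1 k).2.1
      rw [← hk, hneg] at this
      exact ⟨⟨-k, Or.inr (by linarith)⟩, ⟨-k, Or.inl (by linarith)⟩⟩
    · have := (h.2.1 k).2.2.1
      rw [← hk, hneg] at this
      exact ⟨⟨k, Or.inr (by linarith)⟩, ⟨k, Or.inl (by linarith)⟩⟩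
    · have := (h.2.1 k).2.2.2
      rw [← hk, hneg] at this
      exact ⟨⟨k, Or.inl (by linarith)⟩, ⟨k, Or.inr (by linarith)⟩⟩
  have hmv : ∀ i, t i ≠ i → ∃ m : ℤ, i = x + m * per n ∨ i = -x + m * per n := by
    intro i hi
    obtain ⟨⟨c, hc⟩, ⟨d, hd⟩⟩ := hAB
    obtain ⟨k, hk⟩ := h.moved hi
    rcases hk with hk | hk | hk | hk
    · rcases hc with hc | hc
      · exact ⟨c + k, Or.inl (by rw [hk, hc]; ring)⟩
      · exact ⟨c + k, Or.inr (by rw [hk, hc]; ring)⟩
    · rcases hd with hd | hd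
      · exact ⟨d + k, Or.inl (by rw [hk, hd]; ring)⟩
      · exact ⟨d + k, Or.inr (by rw [hk, hd]; ring)⟩
    · rcases hc with hc | hc
      · exact ⟨-c + k, Or.inr (by rw [hk, hc]; ring)⟩
      · exact ⟨-c + k, Or.inl (by rw [hk, hc]; ring)⟩
    · rcases hd with hd | hd
      · exact ⟨-d + k, Or.inr (by rw [hk, hd]; ring)⟩
      · exact ⟨-d + k, Or.inl (by rw [hk, hd]; ring)⟩
  have hset : {i : ℤ | 0 < i ∧ t i < 0} = {x} := by
    ext i
    simp only [Set.mem_ofPred_eq, Set.mem_singleton_iff]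
    constructor
    · rintro ⟨hi, hti⟩
      obtain ⟨m, rfl | rfl⟩ := hmv i (by omega)
      · rw [ha.add_mul, hneg] at hti
        have h1 : 0 ≤ m := by
          by_contra hm
          have : m ≤ -1 := by omega
          nlinarith
        have h2 : m ≤ 0 := by
          by_contra hm
          have : 1 ≤ m := by omega
          nlinarith
        have : m = 0 := by omega
        rw [this]; ring
      · rw [ha.neg_add_mul, hneg] at hti
        exfalso
        have h1 : 1 ≤ m := by
          by_contra hm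
          have : m ≤ 0 := by omega
          nlinarith
        nlinarith
    · rintro rfl
      omega
  rw [hset, Set.ncard_singleton] at hev
  exact absurd hev (by decide)

lemma bad_refl (ht : t ∈ Refl n) : bad n t = ∅ := by
  classical
  have hne := fun {x : ℤ} (hx : x ∈ Icc (1 : ℤ) n) => refl_ne_neg ht hx
  obtain ⟨⟨ha, -⟩, a, b, h⟩ := ht
  unfold bad
  rw [filter_eq_empty_iff]
  rintro j hj ⟨hg, ho⟩
  rw [mem_Icc] at hj
  have hsub : ∀ y ∈ Icc (1 : ℤ) j, y ∈ Icc (1 : ℤ) n := by
    intro y hy; rw [mem_Icc] at *; omega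
  have hprod : ∏ y ∈ Icc (1 : ℤ) j, sg (t y) = 1 := by
    apply prod_involution (fun y _ => |t y|)
    · intro y hy
      have hy' := mem_Icc.mp hy
      have h0 := ha.ne_zero (hsub y hy)
      have := ha.sg_map (z := t y) (by rw [h.inv]; omega) h0
      rw [h.inv] at this
      rw [← this]
      unfold sg
      rw [if_neg (by omega)]
    · intro y hy hs
      have h1 : t y < 0 := by
        by_contra hcon
        apply hs
        unfold sg
        rw [if_neg hcon]
      intro h2
      rw [abs_of_neg h1] at h2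
      exact hne (hsub y hy) (by omega)
    · intro y hy
      have h0 := abs_pos.mpr (ha.ne_zero (hsub y hy))
      have h1 := hg y hy
      rw [mem_Icc]; omega
    · intro y hy
      rw [ha.map_abs, h.inv]
      rw [mem_Icc] at hy
      exact abs_of_pos (by omega)
  rw [prod_sg, neg_one_pow_eq_one_iff_even (by norm_num)] at hprod
  exact (Nat.not_even_iff_odd.mpr ho) hprod

lemma lower (l : List (Equiv.Perm ℤ)) (hl : ∀ t ∈ l, t ∈ Refl n) :
    IsAff n l.prod ∧ F n l.prod ≤ (l.map (tvd n)).sum := by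
  induction l with
  | nil =>
    rw [List.prod_nil, F_one]
    exact ⟨isAff_one n, by simp⟩
  | cons t l ih =>
    have h1 := ih (fun s hs => hl s (List.mem_cons_of_mem _ hs))
    have h2 := hl t List.mem_cons_self
    rw [List.prod_cons, List.map_cons, List.sum_cons]
    refine ⟨h2.1.1.mul h1.1, ?_⟩
    have h3 := F_mul h2.1.1 h1.1
    have h4 : F n t = tvd n t := by
      unfold F
      rw [bad_refl h2]; simp
    linarith [h1.2]

lemma tvd_nonneg (n : ℕ) (w : Equiv.Perm ℤ) : 0 ≤ tvd n w :=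
  sum_nonneg fun _ _ => abs_nonneg _

lemma F_nonneg (n : ℕ) (w : Equiv.Perm ℤ) : 0 ≤ F n w := by
  unfold F
  have := tvd_nonneg n w
  positivity

lemma upper : ∀ (m : ℕ) (w : Equiv.Perm ℤ), InB n w → F n w ≤ m →
    ∃ l : List (Equiv.Perm ℤ), (∀ t ∈ l, t ∈ Refl n) ∧ l.prod = w ∧
      (l.map (tvd n)).sum ≤ F n w := by
  intro m
  induction m with
  | zero =>
    intro w hw hF
    by_cases h1 : w = 1
    · subst h1
      exact ⟨[], by simp, by simp, by simp [F_one]⟩
    · exfalso
      obtain ⟨t, ht, htt, htv, hstep, hB⟩ := step hw h1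
      have := F_nonneg n (w * t)
      simp at hF
      omega
  | succ m ih =>
    intro w hw hF
    by_cases h1 : w = 1
    · subst h1
      exact ⟨[], by simp, by simp, by simp [F_one]⟩
    · obtain ⟨t, ht, htt, htv, hstep, hB⟩ := step hw h1
      obtain ⟨l, hl, hp, hs⟩ := ih (w * t) hB (by push_cast at hF; omega)
      refine ⟨l ++ [t], ?_, ?_, ?_⟩
      · intro s hs'
        rw [List.mem_append, List.mem_singleton] at hs'
        rcases hs' with h | rfl
        · exact hl s h
        · exact ht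
      · rw [List.prod_append, hp, List.prod_singleton, mul_assoc, htt, mul_one]
      · rw [List.map_append, List.sum_append, List.map_singleton, List.sum_singleton]
        omega

lemma sum_half (l : List (Equiv.Perm ℤ)) :
    (l.map fun t => (tvd n t : ℚ) / 2).sum = (((l.map (tvd n)).sum : ℤ) : ℚ) / 2 := by
  induction l with
  | nil => simp
  | cons t l ih =>
    rw [List.map_cons, List.sum_cons, List.map_cons, List.sum_cons, ih]
    push_cast
    ring

lemma bl_sub (h : IsAff n w) : (blC n w : ℤ) - blB n w = #(bad n w) := by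
  classical
  have h1 : {j : ℤ | 1 ≤ j ∧ j ≤ (n : ℤ) - 1 ∧ Good w j} =
      (((Icc (1 : ℤ) (n - 1)).filter fun j => gd w j : Finset ℤ) : Set ℤ) := by
    ext j
    simp only [Set.mem_ofPred_eq, coe_filter, mem_Icc]
    constructor
    · rintro ⟨h1, h2, h3⟩
      exact ⟨⟨h1, h2⟩, (h.good_iff (by omega) (by omega)).mp h3⟩
    · rintro ⟨⟨h1, h2⟩, h3⟩
      exact ⟨h1, h2, (h.good_iff (by omega) (by omega)).mpr h3⟩
  have hng : ∀ j : ℤ, Set.ncard {i : ℤ | 1 ≤ i ∧ i ≤ j ∧ w i < 0} = ng w j := by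
    intro j
    have : {i : ℤ | 1 ≤ i ∧ i ≤ j ∧ w i < 0} =
        (((Icc (1 : ℤ) j).filter fun y => w y < 0 : Finset ℤ) : Set ℤ) := by
      ext i
      simp only [Set.mem_ofPred_eq, coe_filter, mem_Icc]
      tauto
    rw [this, Set.ncard_coe_finset]
    rfl
  have h2 : {j : ℤ | 1 ≤ j ∧ j ≤ (n : ℤ) - 1 ∧ VeryGood w j} =
      (((Icc (1 : ℤ) (n - 1)).filter fun j => gd w j ∧ Even (ng w j) : Finset ℤ) : Set ℤ) := by
    ext j
    simp only [Set.mem_ofPred_eq, coe_filter, mem_Icc]
    unfold VeryGood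
    rw [hng]
    constructor
    · rintro ⟨h1, h2, h3, h4⟩
      exact ⟨⟨h1, h2⟩, (h.good_iff (by omega) (by omega)).mp h3, h4⟩
    · rintro ⟨⟨h1, h2⟩, h3, h4⟩
      exact ⟨h1, h2, (h.good_iff (by omega) (by omega)).mpr h3, h4⟩
  unfold blC blB
  rw [h1, h2, Set.ncard_coe_finset, Set.ncard_coe_finset]
  have h3 : #((Icc (1 : ℤ) (n - 1)).filter fun j => gd w j) =
      #((Icc (1 : ℤ) (n - 1)).filter fun j => gd w j ∧ Even (ng w j)) + #(bad n w) := by
    unfold bad
    rw [← card_union_of_disjoint]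
    · congr 1
      ext j
      simp only [mem_union, mem_filter]
      have := Nat.even_or_odd (ng w j)
      tauto
    · rw [Finset.disjoint_left]
      intro j hj hj'
      rw [mem_filter] at hj hj'
      exact (Nat.not_even_iff_odd.mpr hj'.2.2) hj.2.2
  rw [h3]
  push_cast
  ring

theorem main (n : ℕ) (w : Equiv.Perm ℤ) (hw : InB n w) :
    IsLeast (costs n w) ((tvd n w : ℚ) / 2 + blC n w - blB n w) := by
  have hF : ((F n w : ℤ) : ℚ) / 2 = (tvd n w : ℚ) / 2 + blC n w - blB n w := by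
    have h1 := bl_sub hw.1
    have h2 : ((blC n w : ℚ) - blB n w) = #(bad n w) := by exact_mod_cast h1
    unfold F
    push_cast
    linarith
  rw [← hF]
  obtain ⟨l, hl, hp, hs⟩ := upper (F n w).toNat w hw (by
    have := F_nonneg n w
    omega)
  constructor
  · refine ⟨l, hl, hp, ?_⟩
    rw [sum_half]
    have h1 := (lower l hl).2
    rw [hp] at h1
    have : (l.map (tvd n)).sum = F n w := le_antisymm hs h1
    rw [this]
  · rintro c ⟨l', hl', hp', rfl⟩
    rw [sum_half]
    have h1 := (lower l' hl').2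
    rw [hp'] at h1
    have h2 : ((F n w : ℤ) : ℚ) ≤ (((l'.map (tvd n)).sum : ℤ) : ℚ) := by exact_mod_cast h1
    linarith

end Pool.Agent.R801.AB
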