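import Pool.Agent.R801.AB.Basic

/-!
# The parity
-/

namespace Pool.Agent.R801.AB

open Finset

variable {n : ℕ} {w u : Equiv.Perm ℤ}

/-- The elements of the class of `y` that are counted. -/
noncomputable def cl (n : ℕ) (w : Equiv.Perm ℤ) (y : ℤ) : Finset ℤ :=
  if 0 ≤ w y / per n then (Icc 1 (w y / per n)).image (fun l => -y + l * per n)
  else (Icc 0 (-1 - w y / per n)).image (fun l => y + l * per n)

lemma card_cl (n : ℕ) (w : Equiv.Perm ℤ) (y : ℤ) : #(cl n w y) = (w y / per n).natAbs := by
  have hN := per_pos n
  unfold cl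
  split_ifs with h
  · rw [card_image_of_injective, Int.card_Icc]
    · omega
    · intro a b e
      simp only [add_right_inj] at e
      exact mul_right_cancel₀ hN.ne' e
  · rw [card_image_of_injective, Int.card_Icc]
    · omega
    · intro a b e
      simp only [add_right_inj] at e
      exact mul_right_cancel₀ hN.ne' e

/-- Division with remainder for `w y`. -/
lemma IsAff.div_bounds (h : IsAff n w) {y : ℤ} (hy : y ∈ Icc (1 : ℤ) n) :
    (w y / per n) * per n < w y ∧ w y < (w y / per n) * per n + per n := by
  have hN := per_pos n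
  have h1 := Int.emod_add_mul_ediv (w y) (per n)
  have h2 := Int.emod_nonneg (w y) hN.ne'
  have h3 := Int.emod_lt_of_pos (w y) hN
  have h4 : w y % per n ≠ 0 := by
    intro h4
    rw [h4] at h1
    apply h.ne_half hy (2 * (w y / per n))
    have e : 2 * (w y / per n) * ((n : ℤ) + 1) = per n * (w y / per n) := by unfold per; ring
    rw [e]; linarith
  have h5 : per n * (w y / per n) = (w y / per n) * per n := by ring
  constructor <;> omega

lemma mem_cl_iff (h : IsAff n w) {y : ℤ} (hy : y ∈ Icc (1 : ℤ) n) (i : ℤ) :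
    i ∈ cl n w y ↔ (∃ l : ℤ, (i = y + l * per n ∨ i = -y + l * per n)) ∧ 0 < i ∧ w i < 0 := by
  have hN := per_pos n
  obtain ⟨hb1, hb2⟩ := h.div_bounds hy
  set q := w y / per n with hq
  have hyn := mem_Icc.mp hy
  have hNn : per n = 2 * (n : ℤ) + 2 := rfl
  unfold cl
  rw [← hq]
  split_ifs with hq0
  · rw [mem_image]
    constructor
    · rintro ⟨l, hl, rfl⟩
      rw [mem_Icc] at hl
      refine ⟨⟨l, Or.inr rfl⟩, ?_, ?_⟩
      · nlinarith
      · rw [h.neg_add_mul]; nlinarith
    · rintro ⟨⟨l, rfl | rfl⟩, hi, hw⟩
      · exfalso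
        rw [h.add_mul] at hw
        have : 0 ≤ l := by
          by_contra hl
          push Not at hl
          nlinarith
        nlinarith
      · rw [h.neg_add_mul] at hw
        refine ⟨l, ?_, rfl⟩
        rw [mem_Icc]
        constructor
        · by_contra hl
          push Not at hl
          nlinarith
        · by_contra hl
          push Not at hl
          have : q + 1 ≤ l := by omega
          nlinarith
  · push Not at hq0
    rw [mem_image]
    constructor
    · rintro ⟨l, hl, rfl⟩
      rw [mem_Icc] at hl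
      refine ⟨⟨l, Or.inl rfl⟩, ?_, ?_⟩
      · nlinarith
      · rw [h.add_mul]
        have : l + q ≤ -1 := by omega
        nlinarith
    · rintro ⟨⟨l, rfl | rfl⟩, hi, hw⟩
      · rw [h.add_mul] at hw
        refine ⟨l, ?_, rfl⟩
        rw [mem_Icc]
        constructor
        · by_contra hl
          push Not at hl
          nlinarith
        · by_contra hl
          push Not at hl
          have : 0 ≤ q + l := by omega
          nlinarith
      · exfalso
        rw [h.neg_add_mul] at hw
        have : 1 ≤ l := by
          by_contra hl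
          push Not at hl
          nlinarith
        nlinarith

lemma ncard_eq (h : IsAff n w) :
    Set.ncard {i : ℤ | 0 < i ∧ w i < 0} = ∑ y ∈ Icc (1 : ℤ) n, (w y / per n).natAbs := by
  classical
  have hN := per_pos n
  have hNn : per n = 2 * (n : ℤ) + 2 := rfl
  have e : {i : ℤ | 0 < i ∧ w i < 0} = (((Icc (1 : ℤ) n).biUnion (cl n w) : Finset ℤ) : Set ℤ) := by
    ext i
    simp only [Set.mem_ofPred_eq, coe_biUnion, mem_coe, Set.mem_iUnion, exists_prop]
    constructor
    · rintro ⟨hi, hw⟩
      have h1 := Int.emod_add_mul_ediv i (per n)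
      have h2 := Int.emod_nonneg i hN.ne'
      have h3 := Int.emod_lt_of_pos i hN
      set r := i % per n with hr
      set q := i / per n with hq
      have h5 : per n * q = q * per n := by ring
      have hr0 : r ≠ 0 := by
        intro h0
        have e1 : i = 2 * q * ((n : ℤ) + 1) := by rw [hNn] at h5 h1; linarith
        have := h.map_half (2 * q)
        rw [← e1] at this
        omega
      have hr1 : r ≠ n + 1 := by
        intro h0
        have e1 : i = (2 * q + 1) * ((n : ℤ) + 1) := by rw [hNn] at h5 h1; linarith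
        have := h.map_half (2 * q + 1)
        rw [← e1] at this
        omega
      by_cases hrn : r ≤ n
      · have hy : r ∈ Icc (1 : ℤ) n := by rw [mem_Icc]; omega
        refine ⟨r, hy, ?_⟩
        rw [mem_cl_iff h hy]
        exact ⟨⟨q, Or.inl (by omega)⟩, hi, hw⟩
      · have hy : per n - r ∈ Icc (1 : ℤ) n := by rw [mem_Icc]; omega
        refine ⟨per n - r, hy, ?_⟩
        rw [mem_cl_iff h hy]
        refine ⟨⟨q + 1, Or.inr ?_⟩, hi, hw⟩
        have : (q + 1) * per n = q * per n + per n := by ring
        omega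
    · rintro ⟨y, hy, hi⟩
      rw [mem_cl_iff h hy] at hi
      exact hi.2
  rw [e, Set.ncard_coe_finset, card_biUnion]
  · apply sum_congr rfl
    intro y _
    rw [card_cl]
  · intro y hy y' hy' hne
    show Disjoint (cl n w y) (cl n w y')
    rw [Finset.disjoint_left]
    intro i hi hi'
    rw [mem_cl_iff h hy] at hi
    rw [mem_cl_iff h hy'] at hi'
    apply hne
    have h1 := isAff_one n
    have hy1 := hy; have hy1' := hy'
    rw [mem_coe] at hy1 hy1'
    obtain ⟨⟨l, hl⟩, -⟩ := hi
    obtain ⟨⟨l', hl'⟩, -⟩ := hi'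
    rcases hl with rfl | rfl
    · rcases hl' with hl' | hl'
      · have : (1 : Equiv.Perm ℤ) y = (1 : Equiv.Perm ℤ) y' + (l' - l) * per n := by
          simp only [Equiv.Perm.coe_one, id_eq]; linarith
        exact (h1.inj_pos hy1 hy1' this).1
      · have : (1 : Equiv.Perm ℤ) y = -(1 : Equiv.Perm ℤ) y' + (l' - l) * per n := by
          simp only [Equiv.Perm.coe_one, id_eq]; linarith
        exact (h1.inj_neg hy1 hy1' this).elim
    · rcases hl' with hl' | hl'
      · have : (1 : Equiv.Perm ℤ) y = -(1 : Equiv.Perm ℤ) y' + (l - l') * per n := by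
          simp only [Equiv.Perm.coe_one, id_eq]; linarith
        exact (h1.inj_neg hy1 hy1' this).elim
      · have : (1 : Equiv.Perm ℤ) y = (1 : Equiv.Perm ℤ) y' + (l - l') * per n := by
          simp only [Equiv.Perm.coe_one, id_eq]; linarith
        exact (h1.inj_pos hy1 hy1' this).1

lemma even_sum_natAbs (s : Finset ℤ) (f : ℤ → ℤ) :
    Even (∑ y ∈ s, (f y).natAbs) ↔ Even (∑ y ∈ s, f y) := by
  classical
  induction s using Finset.induction_on with
  | empty => simp
  | insert a s ha ih =>
    rw [sum_insert ha, sum_insert ha, Nat.even_add, Int.even_add, ih, Int.natAbs_even]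

/-- The parity as a sum of floors. -/
lemma InB_iff : InB n w ↔ IsAff n w ∧ Even (∑ y ∈ Icc (1 : ℤ) n, w y / per n) := by
  unfold InB
  constructor
  · rintro ⟨h, hp⟩
    refine ⟨h, ?_⟩
    rwa [ncard_eq h, even_sum_natAbs] at hp
  · rintro ⟨h, hp⟩
    refine ⟨h, ?_⟩
    rwa [ncard_eq h, even_sum_natAbs]

end Pool.Agent.R801.AB
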