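import Pool.Agent.R801.AB.Basic

/-!
# Subadditivity of the potential
-/

namespace Pool.Agent.R801.AB

open Finset

variable {n : ℕ} {w u : Equiv.Perm ℤ}

/-- Representative of the class of `z`. -/
def rep (n : ℕ) (z : ℤ) : ℤ := if z % per n ≤ n then z % per n else per n - z % per n

lemma rep_mem {z : ℤ} (hz : ∀ k : ℤ, z ≠ k * (n + 1)) : rep n z ∈ Icc (1 : ℤ) n := by
  have hN := per_pos n
  have hNn : per n = 2 * (n : ℤ) + 2 := rfl
  have h1 := Int.emod_add_mul_ediv z (per n)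
  have h2 := Int.emod_nonneg z hN.ne'
  have h3 := Int.emod_lt_of_pos z hN
  have h5 : per n * (z / per n) = 2 * (z / per n) * ((n : ℤ) + 1) := by rw [hNn]; ring
  have h0 : z % per n ≠ 0 := by
    intro h0
    apply hz (2 * (z / per n))
    omega
  have h4 : z % per n ≠ n + 1 := by
    intro h0
    apply hz (2 * (z / per n) + 1)
    have : (2 * (z / per n) + 1) * ((n : ℤ) + 1) = 2 * (z / per n) * ((n : ℤ) + 1) + (n + 1) := by ring
    omega
  unfold rep
  split_ifs with h <;> rw [mem_Icc] <;> omega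

lemma rep_eq (n : ℕ) (z : ℤ) : ∃ k : ℤ, z = rep n z + k * per n ∨ z = -rep n z + k * per n := by
  have h1 := Int.emod_add_mul_ediv z (per n)
  unfold rep
  split_ifs with h
  · exact ⟨z / per n, Or.inl (by linarith)⟩
  · refine ⟨z / per n + 1, Or.inr ?_⟩
    linarith

lemma rep_inj (h : IsAff n u) {x y : ℤ} (hx : x ∈ Icc (1 : ℤ) n) (hy : y ∈ Icc (1 : ℤ) n)
    (e : rep n (u x) = rep n (u y)) : x = y := by
  obtain ⟨k, hk⟩ := rep_eq n (u x)
  obtain ⟨l, hl⟩ := rep_eq n (u y)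
  rw [e] at hk
  rcases hk with hk | hk <;> rcases hl with hl | hl
  · exact (h.inj_pos hx hy (k := k - l) (by rw [sub_mul]; linarith)).1
  · exact (h.inj_neg hx hy (k := k + l) (by rw [add_mul]; linarith)).elim
  · exact (h.inj_neg hx hy (k := k + l) (by rw [add_mul]; linarith)).elim
  · exact (h.inj_pos hx hy (k := k - l) (by rw [sub_mul]; linarith)).1

lemma sum_class (h : IsAff n u) (g : ℤ → ℤ) (hg1 : ∀ x k, g (x + k * per n) = g x)
    (hg2 : ∀ x k, g (-x + k * per n) = g x) :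
    ∑ x ∈ Icc (1 : ℤ) n, g (u x) = ∑ x ∈ Icc (1 : ℤ) n, g x := by
  have e1 : ∀ x, g (u x) = g (rep n (u x)) := by
    intro x
    obtain ⟨k, hk | hk⟩ := rep_eq n (u x)
    · conv_lhs => rw [hk]
      rw [hg1]
    · conv_lhs => rw [hk]
      rw [hg2]
  have hinj : Set.InjOn (fun x => rep n (u x)) (Icc (1 : ℤ) n : Finset ℤ) := by
    intro a ha b hb e
    exact rep_inj h (mem_coe.mp ha) (mem_coe.mp hb) e
  have himg : (Icc (1 : ℤ) n).image (fun x => rep n (u x)) = Icc (1 : ℤ) n := by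
    apply eq_of_subset_of_card_le
    · intro v hv
      rw [mem_image] at hv
      obtain ⟨a, ha, rfl⟩ := hv
      exact rep_mem (fun k => h.ne_half ha k)
    · rw [card_image_of_injOn hinj]
  conv_rhs => rw [← himg]
  rw [sum_image hinj]
  exact sum_congr rfl fun x _ => e1 x

open Classical in
/-- The bad positions. -/
noncomputable def bad (n : ℕ) (w : Equiv.Perm ℤ) : Finset ℤ :=
  (Icc (1 : ℤ) (n - 1)).filter fun j => gd w j ∧ Odd (ng w j)

/-- The potential. -/
noncomputable def F (n : ℕ) (w : Equiv.Perm ℤ) : ℤ := tvd n w + 2 * #(bad n w)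

/-- sign -/
def sg (z : ℤ) : ℤ := if z < 0 then -1 else 1

lemma prod_sg (w : Equiv.Perm ℤ) (j : ℤ) :
    ∏ y ∈ Icc (1 : ℤ) j, sg (w y) = (-1) ^ ng w j := by
  unfold sg ng
  rw [prod_ite]
  simp

lemma IsAff.sg_map (h : IsAff n w) {z : ℤ} (hz : w z ≠ 0) (hz0 : z ≠ 0) :
    sg (w z) = sg z * sg (w |z|) := by
  unfold sg
  rcases lt_or_gt_of_ne hz0 with hz1 | hz1
  · rw [abs_of_neg hz1, h.neg, if_pos hz1]
    rcases lt_or_gt_of_ne hz with h2 | h2
    · rw [if_pos h2, if_neg (by omega)]; norm_num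
    · rw [if_neg (by omega), if_pos (by omega)]; norm_num
  · rw [abs_of_pos hz1, if_neg (show ¬ z < 0 by omega)]; norm_num

lemma gd_of_mul (hw : IsAff n w) (hu : IsAff n u) {j : ℤ} (hj : j ≤ n) (hgu : gd u j)
    (hgm : gd (w * u) j) : gd w j := by
  intro y hy
  obtain ⟨x, hx, hxy⟩ := hu.gd_surj hgu hj hy
  have := hgm x hx
  rw [Equiv.Perm.mul_apply] at this
  rw [← hxy, hw.map_abs]
  exact this

lemma ng_mul (hw : IsAff n w) (hu : IsAff n u) {j : ℤ} (hj : j ≤ n) (hgu : gd u j) :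
    Even (ng (w * u) j) ↔ (Even (ng w j) ↔ Even (ng u j)) := by
  have hsub : ∀ y ∈ Icc (1 : ℤ) j, y ∈ Icc (1 : ℤ) n := by
    intro y hy; rw [mem_Icc] at *; omega
  have hinj : Set.InjOn (fun y => |u y|) (Icc (1 : ℤ) j : Finset ℤ) := by
    intro a ha b hb e
    exact hu.abs_inj (hsub a (mem_coe.mp ha)) (hsub b (mem_coe.mp hb)) e
  have himg : (Icc (1 : ℤ) j).image (fun y => |u y|) = Icc (1 : ℤ) j := by
    apply eq_of_subset_of_card_le
    · intro v hv
      rw [mem_image] at hv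
      obtain ⟨a, ha, rfl⟩ := hv
      have h1 : 0 < |u a| := abs_pos.mpr (hu.ne_zero (hsub a ha))
      have h2 : |u a| ≤ j := hgu a ha
      rw [mem_Icc]; constructor <;> omega
    · rw [card_image_of_injOn hinj]
  have e1 : ∏ y ∈ Icc (1 : ℤ) j, sg ((w * u) y) =
      (∏ y ∈ Icc (1 : ℤ) j, sg (u y)) * ∏ y ∈ Icc (1 : ℤ) j, sg (w y) := by
    have e2 : ∏ y ∈ Icc (1 : ℤ) j, sg (w y) = ∏ y ∈ Icc (1 : ℤ) j, sg (w |u y|) := by
      conv_lhs => rw [← himg]
      rw [prod_image hinj]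
    rw [e2, ← prod_mul_distrib]
    apply prod_congr rfl
    intro y hy
    rw [Equiv.Perm.mul_apply]
    apply hw.sg_map
    · have := (hw.mul hu).ne_zero (hsub y hy)
      rwa [Equiv.Perm.mul_apply] at this
    · exact hu.ne_zero (hsub y hy)
  rw [prod_sg, prod_sg, prod_sg, ← pow_add] at e1
  have h1 : (-1 : ℤ) ≠ 1 := by norm_num
  rw [← neg_one_pow_eq_one_iff_even h1, e1, neg_one_pow_eq_one_iff_even h1, Nat.even_add]
  tauto

/-- The slack at `x`. -/
lemma slack (x β z : ℤ) (hx : 1 ≤ x) (J : Finset ℤ) (hJ : ∀ j ∈ J, x ≤ j ∧ |β| ≤ j ∧ j < |z|) :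
    |β - x| + 2 * (#J : ℤ) ≤ |β - z| + |z - x| := by
  have hsub : J ⊆ Ico (max x |β|) |z| := by
    intro j hj
    have := hJ j hj
    rw [mem_Ico]
    exact ⟨max_le this.1 this.2.1, this.2.2⟩
  have hc := card_le_card hsub
  rw [Int.card_Ico] at hc
  have hc' : (#J : ℤ) ≤ max 0 (|z| - max x |β|) := by omega
  rcases abs_cases β with ⟨h1, h1'⟩ | ⟨h1, h1'⟩ <;> rcases abs_cases z with ⟨h2, h2'⟩ | ⟨h2, h2'⟩ <;>
  rcases abs_cases (β - x) with ⟨h3, h3'⟩ | ⟨h3, h3'⟩ <;>
  rcases abs_cases (β - z) with ⟨h4, h4'⟩ | ⟨h4, h4'⟩ <;>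
  rcases abs_cases (z - x) with ⟨h5, h5'⟩ | ⟨h5, h5'⟩ <;>
  omega

lemma F_mul (hw : IsAff n w) (hu : IsAff n u) : F n (w * u) ≤ F n w + F n u := by
  classical
  set J : ℤ → Finset ℤ := fun x =>
    (Icc (1 : ℤ) (n - 1)).filter fun j => x ≤ j ∧ |w (u x)| ≤ j ∧ j < |u x| with hJdef
  have h1 : tvd n (w * u) + 2 * ∑ x ∈ Icc (1 : ℤ) n, (#(J x) : ℤ) ≤ tvd n w + tvd n u := by
    have hs : tvd n w = ∑ x ∈ Icc (1 : ℤ) n, |w (u x) - u x| := by
      unfold tvd
      rw [sum_class hu (fun z => |w z - z|)]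
      · intro x k
        simp only [hw.add_mul]
        congr 1; ring
      · intro x k
        simp only [hw.neg_add_mul]
        rw [← abs_neg]; congr 1; ring
    rw [hs]
    unfold tvd
    rw [mul_sum, ← sum_add_distrib, ← sum_add_distrib]
    apply sum_le_sum
    intro x hx
    rw [mem_Icc] at hx
    rw [Equiv.Perm.mul_apply]
    apply slack _ _ _ hx.1
    intro j hj
    rw [hJdef, mem_filter] at hj
    exact hj.2
  have h2 : bad n (w * u) ⊆ bad n w ∪ bad n u ∪ (Icc (1 : ℤ) n).biUnion J := by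
    intro j hj
    unfold bad at hj
    rw [mem_filter, mem_Icc] at hj
    obtain ⟨⟨hj1, hjn⟩, hg, ho⟩ := hj
    by_cases hgu : gd u j
    · have hgw := gd_of_mul hw hu (by omega) hgu hg
      have hpar := ng_mul hw hu (show j ≤ n by omega) hgu
      rw [← Nat.not_even_iff_odd] at ho
      rw [mem_union, mem_union]
      left
      unfold bad
      rw [mem_filter, mem_filter, mem_Icc, ← Nat.not_even_iff_odd, ← Nat.not_even_iff_odd]
      by_cases he : Even (ng w j)
      · right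
        refine ⟨⟨hj1, hjn⟩, hgu, ?_⟩
        tauto
      · left
        exact ⟨⟨hj1, hjn⟩, hgw, he⟩
    · unfold gd at hgu
      push Not at hgu
      obtain ⟨x, hx, hxj⟩ := hgu
      rw [mem_union]
      right
      rw [mem_biUnion]
      have hx' := mem_Icc.mp hx
      refine ⟨x, by rw [mem_Icc]; omega, ?_⟩
      rw [hJdef]
      simp only [mem_filter, mem_Icc]
      exact ⟨⟨hj1, hjn⟩, hx'.2, hg x hx, hxj⟩
  have h3 := card_le_card h2
  have h4 := card_union_le (bad n w ∪ bad n u) ((Icc (1 : ℤ) n).biUnion J)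
  have h5 := card_union_le (bad n w) (bad n u)
  have h6 : #((Icc (1 : ℤ) n).biUnion J) ≤ ∑ x ∈ Icc (1 : ℤ) n, #(J x) := card_biUnion_le
  have h7 : (#(bad n (w * u)) : ℤ) ≤ #(bad n w) + #(bad n u) + ∑ x ∈ Icc (1 : ℤ) n, (#(J x) : ℤ) := by
    have : #(bad n (w * u)) ≤ #(bad n w) + #(bad n u) + ∑ x ∈ Icc (1 : ℤ) n, #(J x) := by omega
    exact_mod_cast this
  unfold F
  linarith

lemma F_one (n : ℕ) : F n 1 = 0 := by
  classical
  have h1 : tvd n 1 = 0 := by
    unfold tvd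
    apply sum_eq_zero
    intro x _
    simp
  have h2 : bad n 1 = ∅ := by
    unfold bad
    rw [filter_eq_empty_iff]
    rintro j _ ⟨_, h⟩
    have : ng 1 j = 0 := by
      unfold ng
      rw [card_eq_zero, filter_eq_empty_iff]
      intro y hy
      rw [mem_Icc] at hy
      simp only [Equiv.Perm.coe_one, id_eq]
      omega
    rw [this] at h
    exact absurd h (by decide)
  unfold F
  rw [h1, h2]; simp

end Pool.Agent.R801.AB
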