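import Pool.Agent.R801.AB.Par
import Pool.Agent.R801.AB.Sub

/-!
# Reflections
-/

namespace Pool.Agent.R801.AB

open Finset

variable {n : ℕ} {w u : Equiv.Perm ℤ}

/-- The function exchanging the classes of `i` and `j`. -/
def swf (n : ℕ) (i j x : ℤ) : ℤ :=
  if per n ∣ x - i then x - i + j else if per n ∣ x + i then x + i - j
  else if per n ∣ x - j then x - j + i else if per n ∣ x + j then x + j - i else x

lemma dvd_absurd {N a b c : ℤ} (ha : N ∣ a) (hb : N ∣ b) (h : ¬ N ∣ c) (e : c = a - b) : False :=
  h (e ▸ dvd_sub ha hb)

lemma dvd_absurd' {N a b c : ℤ} (ha : N ∣ a) (hb : N ∣ b) (h : ¬ N ∣ c) (e : c = a + b) : False :=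
  h (e ▸ dvd_add ha hb)

lemma swf_invol_A {i j : ℤ} (h1 : ¬ per n ∣ 2 * i) (h2 : ¬ per n ∣ 2 * j) (h3 : ¬ per n ∣ i - j)
    (h4 : ¬ per n ∣ i + j) : Function.Involutive (swf n i j) := by
  intro x
  by_cases a1 : per n ∣ x - i
  · have e : swf n i j x = x - i + j := by unfold swf; rw [if_pos a1]
    rw [e]
    unfold swf
    rw [if_neg, if_neg, if_pos]
    · ring
    · have : x - i + j - j = x - i := by ring
      rw [this]; exact a1
    · intro h; exact dvd_absurd h a1 h4 (by ring)
    · intro h; exact dvd_absurd a1 h h3 (by ring)
  by_cases a2 : per n ∣ x + i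
  · have e : swf n i j x = x + i - j := by unfold swf; rw [if_neg a1, if_pos a2]
    rw [e]
    unfold swf
    rw [if_neg, if_neg, if_neg, if_pos]
    · ring
    · have : x + i - j + j = x + i := by ring
      rw [this]; exact a2
    · intro h; exact dvd_absurd a2 h h2 (by ring)
    · intro h; exact dvd_absurd h a2 h3 (by ring)
    · intro h; exact dvd_absurd a2 h h4 (by ring)
  by_cases a3 : per n ∣ x - j
  · have e : swf n i j x = x - j + i := by unfold swf; rw [if_neg a1, if_neg a2, if_pos a3]
    rw [e]
    unfold swf
    rw [if_pos]
    · ring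
    · have : x - j + i - i = x - j := by ring
      rw [this]; exact a3
  by_cases a4 : per n ∣ x + j
  · have e : swf n i j x = x + j - i := by
      unfold swf; rw [if_neg a1, if_neg a2, if_neg a3, if_pos a4]
    rw [e]
    unfold swf
    rw [if_neg, if_pos]
    · ring
    · have : x + j - i + i = x + j := by ring
      rw [this]; exact a4
    · intro h; exact dvd_absurd a4 h h1 (by ring)
  · have e : swf n i j x = x := by
      unfold swf; rw [if_neg a1, if_neg a2, if_neg a3, if_neg a4]
    rw [e, e]

lemma swf_invol_B {i k : ℤ} (h1 : ¬ per n ∣ 2 * i) :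
    Function.Involutive (swf n i (k * per n - i)) := by
  intro x
  by_cases a1 : per n ∣ x - i
  · have e : swf n i (k * per n - i) x = x - i + (k * per n - i) := by unfold swf; rw [if_pos a1]
    rw [e]
    unfold swf
    rw [if_neg, if_pos]
    · ring
    · have : x - i + (k * per n - i) + i = x - i + k * per n := by ring
      rw [this]; exact dvd_add a1 (dvd_mul_left _ _)
    · intro h
      have h5 : per n ∣ x - i + k * per n := dvd_add a1 (dvd_mul_left _ _)
      exact dvd_absurd h5 h h1 (by ring)
  by_cases a2 : per n ∣ x + i
  · have e : swf n i (k * per n - i) x = x + i - (k * per n - i) := by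
      unfold swf; rw [if_neg a1, if_pos a2]
    rw [e]
    unfold swf
    rw [if_pos]
    · ring
    · have : x + i - (k * per n - i) - i = x + i - k * per n := by ring
      rw [this]; exact dvd_sub a2 (dvd_mul_left _ _)
  have a3 : ¬ per n ∣ x - (k * per n - i) := by
    intro h
    have h5 : per n ∣ x - (k * per n - i) + k * per n := dvd_add h (dvd_mul_left _ _)
    apply a2
    have : x - (k * per n - i) + k * per n = x + i := by ring
    rwa [this] at h5
  have a4 : ¬ per n ∣ x + (k * per n - i) := by
    intro h
    have h5 : per n ∣ x + (k * per n - i) - k * per n := dvd_sub h (dvd_mul_left _ _)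
    apply a1
    have : x + (k * per n - i) - k * per n = x - i := by ring
    rwa [this] at h5
  have e : swf n i (k * per n - i) x = x := by
    unfold swf; rw [if_neg a1, if_neg a2, if_neg a3, if_neg a4]
  rw [e, e]

/-- Properties of a reflection which we use. -/
structure IsRef (n : ℕ) (i j : ℤ) (t : Equiv.Perm ℤ) : Prop where
  sw : IsSwap n i j t
  aff : IsAff n t
  inv : t * t = 1

lemma exists_refA {i j : ℤ} (h1 : ¬ per n ∣ 2 * i) (h2 : ¬ per n ∣ 2 * j) (h3 : ¬ per n ∣ i - j)
    (h4 : ¬ per n ∣ i + j) : ∃ t, IsRef n i j t := by
  have hinv := swf_invol_A h1 h2 h3 h4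
  have key : ∀ k : ℤ, swf n i j (i + k * per n) = j + k * per n ∧
      swf n i j (j + k * per n) = i + k * per n ∧
      swf n i j (-i + k * per n) = -j + k * per n ∧ swf n i j (-j + k * per n) = -i + k * per n := by
    intro k
    have e1 : swf n i j (i + k * per n) = j + k * per n := by
      unfold swf
      rw [if_pos]
      · ring
      · have : i + k * per n - i = k * per n := by ring
        rw [this]; exact dvd_mul_left _ _
    have e3 : swf n i j (-i + k * per n) = -j + k * per n := by
      unfold swf
      rw [if_neg, if_pos]
      · ring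
      · have : -i + k * per n + i = k * per n := by ring
        rw [this]; exact dvd_mul_left _ _
      · intro h
        exact dvd_absurd (dvd_mul_left _ k) h h1 (by ring)
    refine ⟨e1, ?_, e3, ?_⟩
    · rw [← e1, hinv]
    · rw [← e3, hinv]
  refine ⟨hinv.toPerm, ⟨?_, ?_, ?_⟩, ⟨?_, ?_⟩, ?_⟩
  · intro e
    apply h3
    rw [e, sub_self]; exact dvd_zero _
  · exact key
  · intro x hx
    show swf n i j x = x
    unfold swf
    rw [if_neg, if_neg, if_neg, if_neg]
    · rintro ⟨c, hc⟩; exact (hx c).2.2.2 (by linarith)
    · rintro ⟨c, hc⟩; exact (hx c).2.1 (by linarith)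
    · rintro ⟨c, hc⟩; exact (hx c).2.2.1 (by linarith)
    · rintro ⟨c, hc⟩; exact (hx c).1 (by linarith)
  · intro x
    show swf n i j (-x) = -swf n i j x
    by_cases a1 : per n ∣ x - i
    · obtain ⟨c, hc⟩ := a1
      have ex : x = i + c * per n := by linarith
      rw [ex, (key c).1]
      have := (key (-c)).2.2.1
      have e1 : -(i + c * per n) = -i + -c * per n := by ring
      rw [e1, this]; ring
    by_cases a2 : per n ∣ x + i
    · obtain ⟨c, hc⟩ := a2
      have ex : x = -i + c * per n := by linarith
      rw [ex, (key c).2.2.1]
      have := (key (-c)).1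
      have e1 : -(-i + c * per n) = i + -c * per n := by ring
      rw [e1, this]; ring
    by_cases a3 : per n ∣ x - j
    · obtain ⟨c, hc⟩ := a3
      have ex : x = j + c * per n := by linarith
      rw [ex, (key c).2.1]
      have := (key (-c)).2.2.2
      have e1 : -(j + c * per n) = -j + -c * per n := by ring
      rw [e1, this]; ring
    by_cases a4 : per n ∣ x + j
    · obtain ⟨c, hc⟩ := a4
      have ex : x = -j + c * per n := by linarith
      rw [ex, (key c).2.2.2]
      have := (key (-c)).2.1
      have e1 : -(-j + c * per n) = j + -c * per n := by ring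
      rw [e1, this]; ring
    · unfold swf
      rw [if_neg a1, if_neg a2, if_neg a3, if_neg a4, if_neg, if_neg, if_neg, if_neg]
      · intro h; apply a3; rw [← dvd_neg]; have : -(x - j) = -x + j := by ring
        rwa [this]
      · intro h; apply a4; rw [← dvd_neg]; have : -(x + j) = -x - j := by ring
        rwa [this]
      · intro h; apply a1; rw [← dvd_neg]; have : -(x - i) = -x + i := by ring
        rwa [this]
      · intro h; apply a2; rw [← dvd_neg]; have : -(x + i) = -x - i := by ring
        rwa [this]
  · intro x
    show swf n i j (x + per n) = swf n i j x + per n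
    have d : ∀ a : ℤ, (per n ∣ x + per n + a ↔ per n ∣ x + a) := by
      intro a
      have : x + per n + a = x + a + per n := by ring
      rw [this]
      exact dvd_add_self_right
    have d1 := d (-i)
    have d2 := d i
    have d3 := d (-j)
    have d4 := d j
    simp only [← sub_eq_add_neg] at d1 d3
    unfold swf
    simp only [d1, d2, d3, d4]
    split_ifs <;> ring
  · ext x
    show swf n i j (swf n i j x) = x
    exact hinv x

lemma exists_refB {i k : ℤ} (h1 : ¬ per n ∣ 2 * i) : ∃ t, IsRef n i (k * per n - i) t := by
  have hinv := swf_invol_B (k := k) h1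
  have key1 : ∀ c : ℤ, swf n i (k * per n - i) (i + c * per n) = (k * per n - i) + c * per n := by
    intro c
    unfold swf
    rw [if_pos]
    · ring
    · have : i + c * per n - i = c * per n := by ring
      rw [this]; exact dvd_mul_left _ _
  have key2 : ∀ c : ℤ, swf n i (k * per n - i) (-i + c * per n) = -(k * per n - i) + c * per n := by
    intro c
    unfold swf
    rw [if_neg, if_pos]
    · ring
    · have : -i + c * per n + i = c * per n := by ring
      rw [this]; exact dvd_mul_left _ _
    · intro h
      exact dvd_absurd (dvd_mul_left _ c) h h1 (by ring)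
  have key : ∀ c : ℤ, swf n i (k * per n - i) (i + c * per n) = (k * per n - i) + c * per n ∧
      swf n i (k * per n - i) ((k * per n - i) + c * per n) = i + c * per n ∧
      swf n i (k * per n - i) (-i + c * per n) = -(k * per n - i) + c * per n ∧
      swf n i (k * per n - i) (-(k * per n - i) + c * per n) = -i + c * per n := by
    intro c
    refine ⟨key1 c, ?_, key2 c, ?_⟩
    · rw [← key1, hinv]
    · rw [← key2, hinv]
  refine ⟨hinv.toPerm, ⟨?_, ?_, ?_⟩, ⟨?_, ?_⟩, ?_⟩
  · intro e
    apply h1
    have : 2 * i = k * per n := by linarith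
    rw [this]; exact dvd_mul_left _ _
  · exact key
  · intro x hx
    show swf n i (k * per n - i) x = x
    unfold swf
    rw [if_neg, if_neg, if_neg, if_neg]
    · rintro ⟨c, hc⟩; exact (hx c).2.2.2 (by linarith)
    · rintro ⟨c, hc⟩; exact (hx c).2.1 (by linarith)
    · rintro ⟨c, hc⟩; exact (hx c).2.2.1 (by linarith)
    · rintro ⟨c, hc⟩; exact (hx c).1 (by linarith)
  · intro x
    show swf n i (k * per n - i) (-x) = -swf n i (k * per n - i) x
    by_cases a1 : per n ∣ x - i
    · obtain ⟨c, hc⟩ := a1
      have ex : x = i + c * per n := by linarith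
      rw [ex, key1]
      have e1 : -(i + c * per n) = -i + -c * per n := by ring
      rw [e1, key2]; ring
    by_cases a2 : per n ∣ x + i
    · obtain ⟨c, hc⟩ := a2
      have ex : x = -i + c * per n := by linarith
      rw [ex, key2]
      have e1 : -(-i + c * per n) = i + -c * per n := by ring
      rw [e1, key1]; ring
    have a3 : ¬ per n ∣ x - (k * per n - i) := by
      intro h
      have h5 : per n ∣ x - (k * per n - i) + k * per n := dvd_add h (dvd_mul_left _ _)
      apply a2
      have : x - (k * per n - i) + k * per n = x + i := by ring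
      rwa [this] at h5
    have a4 : ¬ per n ∣ x + (k * per n - i) := by
      intro h
      have h5 : per n ∣ x + (k * per n - i) - k * per n := dvd_sub h (dvd_mul_left _ _)
      apply a1
      have : x + (k * per n - i) - k * per n = x - i := by ring
      rwa [this] at h5
    · unfold swf
      rw [if_neg a1, if_neg a2, if_neg a3, if_neg a4, if_neg, if_neg, if_neg, if_neg]
      · intro h; apply a3; rw [← dvd_neg]
        have : -(x - (k * per n - i)) = -x + (k * per n - i) := by ring
        rwa [this]
      · intro h; apply a4; rw [← dvd_neg]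
        have : -(x + (k * per n - i)) = -x - (k * per n - i) := by ring
        rwa [this]
      · intro h; apply a1; rw [← dvd_neg]; have : -(x - i) = -x + i := by ring
        rwa [this]
      · intro h; apply a2; rw [← dvd_neg]; have : -(x + i) = -x - i := by ring
        rwa [this]
  · intro x
    show swf n i (k * per n - i) (x + per n) = swf n i (k * per n - i) x + per n
    have d : ∀ a : ℤ, (per n ∣ x + per n + a ↔ per n ∣ x + a) := by
      intro a
      have : x + per n + a = x + a + per n := by ring
      rw [this]
      exact dvd_add_self_right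
    have d1 := d (-i)
    have d2 := d i
    have d3 := d (-(k * per n - i))
    have d4 := d (k * per n - i)
    simp only [← sub_eq_add_neg] at d1 d3
    unfold swf
    simp only [d1, d2, d3, d4]
    split_ifs <;> ring
  · ext x
    show swf n i (k * per n - i) (swf n i (k * per n - i) x) = x
    exact hinv x

end Pool.Agent.R801.AB
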