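import Pool.Agent.R801.AB.Win

/-!
# The greedy step
-/

namespace Pool.Agent.R801.AB

open Finset

variable {n : ℕ} {w u t : Equiv.Perm ℤ}

lemma exists_least {s : Finset ℤ} {P : ℤ → Prop} (h : ∃ x ∈ s, P x) :
    ∃ x ∈ s, P x ∧ ∀ y ∈ s, y < x → ¬ P y := by
  classical
  obtain ⟨x0, hx0, hP0⟩ := h
  have hne : (s.filter P).Nonempty := ⟨x0, mem_filter.mpr ⟨hx0, hP0⟩⟩
  refine ⟨(s.filter P).min' hne, ?_, ?_, ?_⟩
  · exact (mem_filter.mp (min'_mem _ hne)).1
  · exact (mem_filter.mp (min'_mem _ hne)).2
  · intro y hy hlt hP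
    have := min'_le (s.filter P) y (mem_filter.mpr ⟨hy, hP⟩)
    omega

lemma exists_greatest {s : Finset ℤ} {P : ℤ → Prop} (h : ∃ x ∈ s, P x) :
    ∃ x ∈ s, P x ∧ ∀ y ∈ s, x < y → ¬ P y := by
  classical
  obtain ⟨x0, hx0, hP0⟩ := h
  have hne : (s.filter P).Nonempty := ⟨x0, mem_filter.mpr ⟨hx0, hP0⟩⟩
  refine ⟨(s.filter P).max' hne, ?_, ?_, ?_⟩
  · exact (mem_filter.mp (max'_mem _ hne)).1
  · exact (mem_filter.mp (max'_mem _ hne)).2
  · intro y hy hlt hP
    have := le_max' (s.filter P) y (mem_filter.mpr ⟨hy, hP⟩)
    omega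

lemma eq_one_of_fix (h : IsAff n w) (hf : ∀ y ∈ Icc (1 : ℤ) n, w y = y) : w = 1 := by
  ext z
  simp only [Equiv.Perm.coe_one, id_eq]
  by_cases hz : ∃ k : ℤ, z = k * (n + 1)
  · obtain ⟨k, rfl⟩ := hz
    exact h.map_half k
  · push Not at hz
    have hm := rep_mem hz
    obtain ⟨k, hk | hk⟩ := rep_eq n z
    · conv_lhs => rw [hk]
      rw [h.add_mul, hf _ hm]; exact hk.symm
    · conv_lhs => rw [hk]
      rw [h.neg_add_mul, hf _ hm]; exact hk.symm

lemma ng_eq_of_nonneg {j j' : ℤ} (hjj : j ≤ j') (h : ∀ y, j < y → y ≤ j' → 0 ≤ w y) :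
    ng w j' = ng w j := by
  unfold ng
  congr 1
  ext y
  rw [mem_filter, mem_filter, mem_Icc, mem_Icc]
  constructor
  · rintro ⟨hy, hw⟩
    refine ⟨⟨hy.1, ?_⟩, hw⟩
    by_contra hcon
    have := h y (by omega) hy.2
    omega
  · rintro ⟨hy, hw⟩
    exact ⟨⟨hy.1, by omega⟩, hw⟩

/-- Floor of small numbers. -/
lemma floor_small (h : IsAff n w) {y : ℤ} (hy : y ∈ Icc (1 : ℤ) n) (hs : |w y| ≤ n) :
    w y / per n = -(if w y < 0 then 1 else 0) := by
  have hNn : per n = 2 * (n : ℤ) + 2 := rfl
  rw [abs_le] at hs
  have h0 := h.ne_zero hy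
  split_ifs with hw
  · apply ediv_eq' (per_pos n) <;> rw [hNn] <;> omega
  · apply ediv_eq' (per_pos n) <;> rw [hNn] <;> omega

lemma sum_floor (h : IsAff n w) {p q : ℤ} (hp : p ∈ Icc (1 : ℤ) n) (hpq : p ≤ q) (hqn : q ≤ n)
    (hw0 : 0 < w p) (h1 : ∀ y ∈ Icc (1 : ℤ) q, y ≠ p → |w y| ≤ n)
    (h2 : ∀ y ∈ Icc (1 : ℤ) n, q < y → 0 ≤ w y ∧ w y ≤ n) :
    ∑ y ∈ Icc (1 : ℤ) n, w y / per n = w p / per n - ng w q := by
  have hNn : per n = 2 * (n : ℤ) + 2 := rfl
  have e : ∀ y ∈ Icc (1 : ℤ) n, w y / per n =
      (if y = p then w p / per n else 0) - (if y ≤ q ∧ w y < 0 then 1 else 0) := by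
    intro y hy
    by_cases hyp : y = p
    · subst hyp
      rw [if_pos rfl, if_neg]
      · ring
      · rintro ⟨-, h3⟩; omega
    · rw [if_neg hyp]
      have hy' := mem_Icc.mp hy
      by_cases hyq : y ≤ q
      · rw [floor_small h hy (h1 y (by rw [mem_Icc]; omega) hyp)]
        simp [hyq]
      · have h3 := h2 y hy (by omega)
        rw [if_neg (by omega)]
        have : w y / per n = 0 := by
          apply Int.ediv_eq_zero_of_lt <;> omega
        rw [this]; ring
  rw [sum_congr rfl e, sum_sub_distrib, sum_ite_eq' , if_pos hp, sum_boole]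
  congr 1
  unfold ng
  congr 1
  congr 1
  ext y
  rw [mem_filter, mem_filter, mem_Icc, mem_Icc]
  constructor
  · rintro ⟨h3, h4, h5⟩; exact ⟨⟨h3.1, h4⟩, h5⟩
  · rintro ⟨h3, h5⟩; exact ⟨⟨h3.1, by omega⟩, h3.2, h5⟩

lemma evenB (hw : InB n w) {j : ℤ} (hj : j ≤ n) (hg : gd w j)
    (h : ∀ y ∈ Icc (1 : ℤ) n, j < y → w y / per n = 0) : Even (ng w j) := by
  have he := (InB_iff.mp hw).2
  have e : ∀ y ∈ Icc (1 : ℤ) n, w y / per n = -(if y ≤ j ∧ w y < 0 then 1 else 0) := by
    intro y hy
    have hy' := mem_Icc.mp hy
    by_cases hyj : y ≤ j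
    · have := hg y (by rw [mem_Icc]; omega)
      rw [floor_small hw.1 hy (by omega)]
      simp [hyj]
    · rw [if_neg (by omega), h y hy (by omega)]; ring
  rw [sum_congr rfl e, sum_neg_distrib, sum_boole, even_neg, Int.even_coe_nat] at he
  have : ng w j = #{x ∈ Icc (1 : ℤ) n | x ≤ j ∧ w x < 0} := by
    unfold ng
    congr 1
    ext y
    rw [mem_filter, mem_filter, mem_Icc, mem_Icc]
    constructor
    · rintro ⟨h3, h5⟩; exact ⟨⟨h3.1, by omega⟩, h3.2, h5⟩
    · rintro ⟨h3, h4, h5⟩; exact ⟨⟨h3.1, h4⟩, h5⟩
  rw [this]; exact he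

/-! ### Case I: the last moved position moves right -/

lemma caseI (hw : InB n w) {m : ℤ} (hm : m ∈ Icc (1 : ℤ) n) (hR : m < w m)
    (hf : ∀ y ∈ Icc (1 : ℤ) n, m < y → w y = y) : Step n w := by
  have hNn : per n = 2 * (n : ℤ) + 2 := rfl
  have hm' := mem_Icc.mp hm
  have ha := hw.1
  have hge : per n - m ≤ w m := by
    by_contra hcon
    push Not at hcon
    rcases lt_trichotomy (w m) (n + 1) with h | h | h
    · have hv : w m ∈ Icc (1 : ℤ) n := by rw [mem_Icc]; omega
      have h1 := hf _ hv hR
      have := w.injective h1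
      omega
    · exact ha.ne_half hm 1 (by rw [h]; ring)
    · have hv : per n - w m ∈ Icc (1 : ℤ) n := by rw [mem_Icc]; omega
      have h1 := hf _ hv (by omega)
      exact ha.inj_neg (k := 1) hm hv (by rw [h1]; ring)
  obtain ⟨t, ht⟩ := exists_RB hm (k := 1) odd_one
  apply ht.step hw
  · intro j hj hjn hg
    apply evenB (ht.InB_mul hw) (by omega) hg
    intro y hy hjy
    rw [ht.wy w hy (by omega), hf y hy (by omega)]
    rw [mem_Icc] at hy
    apply Int.ediv_eq_zero_of_lt <;> omega
  · rw [one_mul, abs_of_nonpos (show per n - w m - m ≤ 0 by omega),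
      abs_of_nonneg (show 0 ≤ per n - m - m by omega), abs_of_nonneg (show 0 ≤ w m - m by omega)]
    omega

/-! ### Case II: a position `p` moving right, nothing behind it moves right -/

lemma caseII (hw : InB n w) {p : ℤ} (hp : p ∈ Icc (1 : ℤ) n) (hR : p < w p)
    (hL : ∀ y ∈ Icc (1 : ℤ) n, p < y → w y ≤ y)
    (hex : ∃ q ∈ Icc (1 : ℤ) n, p < q ∧ w q < q) : Step n w := by
  classical
  have hNn : per n = 2 * (n : ℤ) + 2 := rfl
  have hp' := mem_Icc.mp hp
  have ha := hw.1
  obtain ⟨q, hq, ⟨hpq, hqL⟩, hqmin⟩ := exists_least hex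
  have hq' := mem_Icc.mp hq
  have hfix : ∀ y, p < y → y < q → w y = y := by
    intro y h1 h2
    have hy : y ∈ Icc (1 : ℤ) n := by rw [mem_Icc]; omega
    have h3 := hqmin y hy h2
    have h4 := hL y hy h1
    push Not at h3
    have := h3 h1
    omega
  have hwp : q ≤ w p := by
    by_contra hcon
    push Not at hcon
    have := w.injective (hfix (w p) hR hcon)
    omega
  have hwq : w q ≤ p := by
    by_contra hcon
    push Not at hcon
    have := w.injective (hfix (w q) hcon hqL)
    omega
  obtain ⟨t, ht⟩ := exists_RA hp hq hpq (s := 1) (Or.inl rfl)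
  by_cases hmid : ∀ j, p ≤ j → j < q → gd (w * t) j → Even (ng (w * t) j)
  · refine ht.step hw ∅ (empty_subset _) (empty_subset _) hmid ?_
    rw [one_mul, one_mul, one_mul, one_mul, card_empty,
      abs_of_nonpos (show w q - p ≤ 0 by omega), abs_of_nonneg (show 0 ≤ w p - q by omega),
      abs_of_nonneg (show 0 ≤ q - p by omega), abs_of_nonpos (show p - q ≤ 0 by omega),
      abs_of_nonneg (show 0 ≤ w p - p by omega), abs_of_nonpos (show w q - q ≤ 0 by omega)]
    simp only [Nat.cast_zero, mul_zero]
    omega
  push Not at hmid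
  obtain ⟨j0, hpj, hjq, hg0, ho0⟩ := hmid
  have hH1 : ∀ y ∈ Icc (1 : ℤ) q, y ≠ p → |w y| ≤ q - 1 := by
    intro y hy hyp
    have hy' := mem_Icc.mp hy
    by_cases h1 : y = q
    · have := hg0 p (by rw [mem_Icc]; omega)
      rw [ht.wp ha, one_mul] at this
      rw [h1]; omega
    by_cases h2 : y ≤ j0
    · have := hg0 y (by rw [mem_Icc]; omega)
      rw [ht.wy w (by rw [mem_Icc]; omega) hyp h1] at this
      omega
    · rw [hfix y (by omega) (by omega), abs_le]; omega
  have hH2 : ¬ Even (ng w q) := by
    have h1 := ht.gd_even (j := q) (Or.inr le_rfl) hq'.2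
    have h2 := ng_mul ha ht.ref.aff hq'.2 h1.1
    have h3 : ng (w * t) q = ng (w * t) j0 := by
      apply ng_eq_of_nonneg (by omega)
      intro y h4 h5
      by_cases h6 : y = q
      · rw [h6, ht.wq ha, one_mul]; omega
      · rw [ht.wy w (by rw [mem_Icc]; omega) (by omega) h6, hfix y (by omega) (by omega)]; omega
    rw [h3] at h2
    tauto
  -- the set `S`
  have hScard : ((q - 1 : ℤ)) ≤ #((Icc (1 : ℤ) q).erase p) := by
    rw [card_erase_of_mem (by rw [mem_Icc]; omega), Int.card_Icc]
    omega
  have hSsub : (Icc (1 : ℤ) q).erase p ⊆ Icc (1 : ℤ) n := by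
    intro y hy
    rw [mem_erase, mem_Icc] at hy
    rw [mem_Icc]; omega
  by_cases hx : ∃ x ∈ Icc (1 : ℤ) n, q < x ∧ w x < 0
  · obtain ⟨x, hx, ⟨hqx, hwx⟩, hxmin⟩ := exists_least hx
    have hx' := mem_Icc.mp hx
    have hpos : ∀ y, q < y → y < x → 0 ≤ w y := by
      intro y h1 h2
      by_contra hcon
      exact hxmin y (by rw [mem_Icc]; omega) h2 ⟨h1, by omega⟩
    obtain ⟨t', ht'⟩ := exists_RA hp hx (show p < x by omega) (s := 1) (Or.inl rfl)
    have hmul := ha.mul ht'.ref.aff
    by_cases hA : x ≤ w p
    · -- sub-case A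
      refine ht'.step hw ∅ (empty_subset _) (empty_subset _) ?_ ?_
      · intro j hpj' hjx hg
        by_cases hjq' : j < q
        · exfalso
          have h1 : q - 1 < |(w * t') p| := by
            apply hmul.pigeon hSsub _ hScard hp
            · rw [mem_erase]; tauto
            · intro y hy
              rw [mem_erase] at hy
              have hy' := mem_Icc.mp hy.2
              rw [ht'.wy w (by rw [mem_Icc]; omega) hy.1 (by omega)]
              exact hH1 y hy.2 hy.1
          have h2 := hg p (by rw [mem_Icc]; omega)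
          omega
        · push Not at hjq'
          have h1 : ng (w * t') j = ng w q + 1 := by
            have : (Icc (1 : ℤ) j).filter (fun y => (w * t') y < 0) =
                insert p ((Icc (1 : ℤ) q).filter fun y => w y < 0) := by
              ext y
              rw [mem_filter, mem_insert, mem_filter, mem_Icc, mem_Icc]
              constructor
              · rintro ⟨h1, h2⟩
                by_cases h3 : y = p
                · exact Or.inl h3
                · right
                  rw [ht'.wy w (by rw [mem_Icc]; omega) h3 (by omega)] at h2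
                  refine ⟨⟨h1.1, ?_⟩, h2⟩
                  by_contra hcon
                  have := hpos y (by omega) (by omega)
                  omega
              · rintro (h1 | ⟨h1, h2⟩)
                · rw [h1, ht'.wp ha, one_mul]
                  exact ⟨by omega, hwx⟩
                · have h3 : y ≠ p := by
                    intro h3; rw [h3] at h2; omega
                  rw [ht'.wy w (by rw [mem_Icc]; omega) h3 (by omega)]
                  exact ⟨by omega, h2⟩
            unfold ng
            rw [this, card_insert_of_notMem]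
            rw [mem_filter]
            rintro ⟨-, h2⟩
            omega
          rw [h1, Nat.even_add_one]
          exact hH2
      · rw [one_mul, one_mul, one_mul, one_mul, card_empty,
          abs_of_nonpos (show w x - p ≤ 0 by omega), abs_of_nonneg (show 0 ≤ w p - x by omega),
          abs_of_nonneg (show 0 ≤ x - p by omega), abs_of_nonpos (show p - x ≤ 0 by omega),
          abs_of_nonneg (show 0 ≤ w p - p by omega), abs_of_nonpos (show w x - x ≤ 0 by omega)]
        simp only [Nat.cast_zero, mul_zero]
        omega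
    · -- sub-case B
      push Not at hA
      have hgdw : ∀ i, w p ≤ i → i < x → gd w i := by
        intro i h1 h2 y hy
        have hy' := mem_Icc.mp hy
        by_cases h3 : y = p
        · rw [h3, abs_le]; omega
        by_cases h4 : y ≤ q
        · have := hH1 y (by rw [mem_Icc]; omega) h3
          omega
        · have h5 := hpos y (by omega) (by omega)
          have h6 := hL y (by rw [mem_Icc]; omega) (by omega)
          rw [abs_le]; omega
      have hnotgd : |w x| > x - 1 :=
        ha.gd_gt (hgdw (x - 1) (by omega) (by omega)) (by omega) hx (by omega)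
      refine ht'.step hw (Ico (w p) x) ?_ ?_ ?_ ?_
      · intro i hi
        have hi' := mem_Ico.mp hi
        unfold bad
        rw [mem_filter, mem_Icc]
        refine ⟨by omega, hgdw i hi'.1 hi'.2, ?_⟩
        rw [ng_eq_of_nonneg (j := q) (by omega)]
        · exact Nat.not_even_iff_odd.mp hH2
        · intro y h1 h2
          exact hpos y h1 (by omega)
      · intro i hi
        rw [mem_Ico] at *
        omega
      · intro j hpj' hjx hg
        exfalso
        have h2 := hg p (by rw [mem_Icc]; omega)
        rw [ht'.wp ha, one_mul] at h2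
        omega
      · rw [one_mul, one_mul, one_mul, one_mul, Int.card_Ico,
          abs_of_nonpos (show w x - p ≤ 0 by omega), abs_of_nonpos (show w p - x ≤ 0 by omega),
          abs_of_nonneg (show 0 ≤ x - p by omega), abs_of_nonpos (show p - x ≤ 0 by omega),
          abs_of_nonneg (show 0 ≤ w p - p by omega), abs_of_nonpos (show w x - x ≤ 0 by omega)]
        omega
  · -- sub-case C
    push Not at hx
    have hsum := sum_floor ha hp (le_of_lt hpq) hq'.2 (by omega)
      (fun y hy hyp => by have := hH1 y hy hyp; omega)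
      (fun y hy hqy => ⟨hx y hy hqy, by have := hL y hy (by omega); rw [mem_Icc] at hy; omega⟩)
    have he := (InB_iff.mp hw).2
    rw [hsum, Int.even_sub, Int.even_coe_nat] at he
    have hfl : w p / per n ≠ 0 := by
      intro h0
      rw [h0] at he
      exact hH2 (he.mp Even.zero)
    have hbig : per n ≤ w p := by
      by_contra hcon
      push Not at hcon
      exact hfl (Int.ediv_eq_zero_of_lt (by omega) hcon)
    obtain ⟨t', ht'⟩ := exists_RB hp (k := 1) odd_one
    have hmul := ha.mul ht'.ref.aff
    apply ht'.step hw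
    · intro j hj hjn hg
      by_cases hjq' : j < q
      · exfalso
        have h1 : q - 1 < |(w * t') p| := by
          apply hmul.pigeon hSsub _ hScard hp
          · rw [mem_erase]; tauto
          · intro y hy
            rw [mem_erase] at hy
            have hy' := mem_Icc.mp hy.2
            rw [ht'.wy w (by rw [mem_Icc]; omega) hy.1]
            exact hH1 y hy.2 hy.1
        have h2 := hg p (by rw [mem_Icc]; omega)
        omega
      · apply evenB (ht'.InB_mul hw) (by omega) hg
        intro y hy hjy
        rw [ht'.wy w hy (by omega)]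
        have h1 := hx y hy (by omega)
        have h2 := hL y hy (by omega)
        rw [mem_Icc] at hy
        apply Int.ediv_eq_zero_of_lt <;> omega
    · rw [one_mul, abs_of_nonpos (show per n - w p - p ≤ 0 by omega),
        abs_of_nonneg (show 0 ≤ per n - p - p by omega), abs_of_nonneg (show 0 ≤ w p - p by omega)]
      omega

/-! ### Case III: nothing moves right -/

lemma caseIII (hw : InB n w) (hL : ∀ y ∈ Icc (1 : ℤ) n, w y ≤ y)
    (hex : ∃ q ∈ Icc (1 : ℤ) n, w q ≠ q) : Step n w := by
  classical
  have hNn : per n = 2 * (n : ℤ) + 2 := rfl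
  have ha := hw.1
  obtain ⟨i, hi, hne, himin⟩ := exists_least hex
  have hi' := mem_Icc.mp hi
  have hfix : ∀ y, 1 ≤ y → y < i → w y = y := by
    intro y h1 h2
    by_contra hcon
    exact himin y (by rw [mem_Icc]; omega) h2 hcon
  have habs : ∀ y ∈ Icc (1 : ℤ) n, i ≤ y → i ≤ |w y| := by
    intro y hy hiy
    by_contra hcon
    push Not at hcon
    have h0 := abs_pos.mpr (ha.ne_zero hy)
    have h1 : w |w y| = |w y| := hfix _ (by omega) hcon
    have h2 : |w (|w y|)| = |w y| := by rw [h1, abs_abs]
    have h3 := ha.abs_inj (x := |w y|) (y := y) (by rw [mem_Icc]; omega) hy h2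
    omega
  have hwi : w i ≤ -i := by
    have h1 := habs i hi le_rfl
    have h2 := hL i hi
    rcases abs_cases (w i) with ⟨h3, h4⟩ | ⟨h3, h4⟩ <;> omega
  by_cases hk : ∃ k ∈ Icc (1 : ℤ) n, i < k ∧ w k < 0
  · obtain ⟨k, hk, ⟨hik, hwk⟩, hkmin⟩ := exists_least hk
    have hk' := mem_Icc.mp hk
    have hpos : ∀ y, i < y → y < k → 0 ≤ w y := by
      intro y h1 h2
      by_contra hcon
      exact hkmin y (by rw [mem_Icc]; omega) h2 ⟨h1, by omega⟩
    have hwk' : w k ≤ -i := by
      have h1 := habs k hk (by omega)
      rw [abs_of_neg hwk] at h1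
      omega
    obtain ⟨t, ht⟩ := exists_RA hi hk hik (s := -1) (Or.inr rfl)
    by_cases hA : k ≤ -w i
    · refine ht.step hw ∅ (empty_subset _) (empty_subset _) ?_ ?_
      · intro j hj hjk hg
        have : ng (w * t) j = 0 := by
          unfold ng
          rw [card_eq_zero, filter_eq_empty_iff]
          intro y hy
          have hy' := mem_Icc.mp hy
          by_cases h1 : y = i
          · rw [h1, ht.wp ha]; omega
          rw [ht.wy w (by rw [mem_Icc]; omega) h1 (by omega)]
          by_cases h2 : y < i
          · rw [hfix y hy'.1 h2]; omega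
          · have := hpos y (by omega) (by omega)
            omega
        rw [this]; exact Even.zero
      · rw [card_empty, abs_of_nonneg (show 0 ≤ -1 * w k - i by omega),
          abs_of_nonneg (show 0 ≤ -1 * w i - k by omega),
          abs_of_nonpos (show -1 * k - i ≤ 0 by omega), abs_of_nonpos (show -1 * i - k ≤ 0 by omega),
          abs_of_nonpos (show w i - i ≤ 0 by omega), abs_of_nonpos (show w k - k ≤ 0 by omega)]
        simp only [Nat.cast_zero, mul_zero]
        omega
    · push Not at hA
      have hgdw : ∀ j, -w i ≤ j → j < k → gd w j := by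
        intro j h1 h2 y hy
        have hy' := mem_Icc.mp hy
        by_cases h3 : y = i
        · rw [h3, abs_le]; omega
        by_cases h4 : y < i
        · rw [hfix y hy'.1 h4, abs_le]; omega
        · have h5 := hpos y (by omega) (by omega)
          have h6 := hL y (by rw [mem_Icc]; omega)
          rw [abs_le]; omega
      have hnotgd : |w k| > k - 1 :=
        ha.gd_gt (hgdw (k - 1) (by omega) (by omega)) (by omega) hk (by omega)
      rw [abs_of_neg hwk] at hnotgd
      refine ht.step hw (Ico (-w i) k) ?_ ?_ ?_ ?_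
      · intro j hj
        have hj' := mem_Ico.mp hj
        unfold bad
        rw [mem_filter, mem_Icc]
        refine ⟨by omega, hgdw j hj'.1 hj'.2, ?_⟩
        have : ng w j = 1 := by
          unfold ng
          rw [card_eq_one]
          refine ⟨i, ?_⟩
          ext y
          rw [mem_filter, mem_singleton, mem_Icc]
          constructor
          · rintro ⟨h1, h2⟩
            by_contra hcon
            by_cases h4 : y < i
            · rw [hfix y h1.1 h4] at h2; omega
            · have := hpos y (by omega) (by omega)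
              omega
          · rintro rfl
            omega
        rw [this]; exact odd_one
      · intro j hj
        rw [mem_Ico] at *
        omega
      · intro j hj hjk hg
        exfalso
        have h2 := hg i (by rw [mem_Icc]; omega)
        rw [ht.wp ha, abs_le] at h2
        omega
      · rw [Int.card_Ico, abs_of_nonneg (show 0 ≤ -1 * w k - i by omega),
          abs_of_nonpos (show -1 * w i - k ≤ 0 by omega),
          abs_of_nonpos (show -1 * k - i ≤ 0 by omega), abs_of_nonpos (show -1 * i - k ≤ 0 by omega),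
          abs_of_nonpos (show w i - i ≤ 0 by omega), abs_of_nonpos (show w k - k ≤ 0 by omega)]
        omega
  · push Not at hk
    have hy0 : ∀ y ∈ Icc (1 : ℤ) n, y ≠ i → w y / per n = 0 := by
      intro y hy hyi
      have hy' := mem_Icc.mp hy
      by_cases h4 : y < i
      · rw [hfix y hy'.1 h4]
        apply Int.ediv_eq_zero_of_lt <;> omega
      · have h5 := hk y hy (by omega)
        have h6 := hL y hy
        apply Int.ediv_eq_zero_of_lt <;> omega
    have he := (InB_iff.mp hw).2
    rw [sum_eq_single_of_mem i hi (fun y hy h => hy0 y hy h)] at he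
    obtain ⟨hb1, hb2⟩ := ha.div_bounds hi
    have hlt : w i < -per n := by
      obtain ⟨c, hc⟩ := he
      rw [hc] at hb1 hb2
      have hN := per_pos n
      have hc0 : c + c ≤ -2 := by
        by_contra hcon
        have : 0 ≤ c := by omega
        nlinarith
      nlinarith
    have hge : w i ≤ -per n - i := by
      by_contra hcon
      push Not at hcon
      have hv : -w i - per n ∈ Icc (1 : ℤ) n := by rw [mem_Icc]; omega
      have h1 := hfix (-w i - per n) (by omega) (by omega)
      exact ha.inj_neg (k := -1) hi hv (by rw [h1]; ring)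
    obtain ⟨t, ht⟩ := exists_RB hi (k := -1) (by decide)
    apply ht.step hw
    · intro j hj hjn hg
      have : ng (w * t) j = 0 := by
        unfold ng
        rw [card_eq_zero, filter_eq_empty_iff]
        intro y hy
        have hy' := mem_Icc.mp hy
        by_cases h1 : y = i
        · rw [h1, ht.wp ha]; omega
        rw [ht.wy w (by rw [mem_Icc]; omega) h1]
        by_cases h2 : y < i
        · rw [hfix y hy'.1 h2]; omega
        · have := hk y (by rw [mem_Icc]; omega) (by omega)
          omega
      rw [this]; exact Even.zero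
    · rw [abs_of_nonneg (show 0 ≤ -1 * per n - w i - i by omega),
        abs_of_nonpos (show -1 * per n - i - i ≤ 0 by omega),
        abs_of_nonpos (show w i - i ≤ 0 by omega)]
      omega

theorem step (hw : InB n w) (h1 : w ≠ 1) : Step n w := by
  classical
  have hex : ∃ q ∈ Icc (1 : ℤ) n, w q ≠ q := by
    by_contra hcon
    push Not at hcon
    exact h1 (eq_one_of_fix hw.1 hcon)
  obtain ⟨m, hm, hmne, hmmax⟩ := exists_greatest hex
  rcases lt_or_gt_of_ne hmne with hlt | hgt
  · by_cases hR : ∃ p ∈ Icc (1 : ℤ) n, p < w p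
    · obtain ⟨p, hp, hpR, hpmax⟩ := exists_greatest hR
      apply caseII hw hp hpR
      · intro y hy hpy
        have := hpmax y hy hpy
        omega
      · refine ⟨m, hm, ?_, hlt⟩
        by_contra hcon
        push Not at hcon
        rcases hcon.lt_or_eq with h | h
        · exact hmmax p hp h (by omega)
        · rw [h] at hlt; omega
    · push Not at hR
      exact caseIII hw hR hex
  · apply caseI hw hm hgt
    intro y hy hmy
    by_contra hcon
    exact hmmax y hy hmy hcon

end Pool.Agent.R801.AB
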