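import Pool.Agent.R801.AB.Ref

/-!
# Reflections on the window
-/

namespace Pool.Agent.R801.AB

open Finset

variable {n : ℕ} {w u t : Equiv.Perm ℤ}

lemma not_dvd {a : ℤ} (h1 : a ≠ 0) (h2 : |a| < per n) : ¬ per n ∣ a :=
  fun h => h1 (Int.eq_zero_of_abs_lt_dvd h h2)

lemma winA {p q s : ℤ} (hp : p ∈ Icc (1 : ℤ) n) (hq : q ∈ Icc (1 : ℤ) n) (hne : p ≠ q)
    (hs : s = 1 ∨ s = -1) : ∃ t, IsRef n p (s * q) t ∧ t p = s * q ∧ t q = s * p ∧
      ∀ y ∈ Icc (1 : ℤ) n, y ≠ p → y ≠ q → t y = y := by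
  have hNn : per n = 2 * (n : ℤ) + 2 := rfl
  rw [mem_Icc] at hp hq
  have b : ∀ a : ℤ, -(2 * (n : ℤ) + 2) < a → a < 2 * (n : ℤ) + 2 → a ≠ 0 → ¬ per n ∣ a := by
    intro a h1 h2 h3
    apply not_dvd h3
    rw [abs_lt, hNn]; exact ⟨h1, h2⟩
  obtain ⟨t, ht⟩ : ∃ t, IsRef n p (s * q) t := by
    apply exists_refA
    · apply b <;> omega
    · apply b <;> rcases hs with rfl | rfl <;> omega
    · apply b <;> rcases hs with rfl | rfl <;> omega
    · apply b <;> rcases hs with rfl | rfl <;> omega
  refine ⟨t, ht, ?_, ?_, ?_⟩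
  · have := (ht.sw.2.1 0).1
    simpa using this
  · rcases hs with rfl | rfl
    · have := (ht.sw.2.1 0).2.1
      simpa using this
    · have := (ht.sw.2.1 0).2.2.2
      simpa using this
  · intro y hy h1 h2
    rw [mem_Icc] at hy
    apply ht.sw.2.2
    intro k
    refine ⟨?_, ?_, ?_, ?_⟩
    · intro e
      apply b (y - p) (by omega) (by omega) (by omega)
      exact ⟨k, by linarith⟩
    · intro e
      rcases hs with rfl | rfl
      · apply b (y - q) (by omega) (by omega) (by omega)
        exact ⟨k, by linarith⟩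
      · apply b (y + q) (by omega) (by omega) (by omega)
        exact ⟨k, by linarith⟩
    · intro e
      apply b (y + p) (by omega) (by omega) (by omega)
      exact ⟨k, by linarith⟩
    · intro e
      rcases hs with rfl | rfl
      · apply b (y + q) (by omega) (by omega) (by omega)
        exact ⟨k, by linarith⟩
      · apply b (y - q) (by omega) (by omega) (by omega)
        exact ⟨k, by linarith⟩

lemma winB {p : ℤ} (hp : p ∈ Icc (1 : ℤ) n) (k : ℤ) :
    ∃ t, IsRef n p (k * per n - p) t ∧ t p = k * per n - p ∧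
      ∀ y ∈ Icc (1 : ℤ) n, y ≠ p → t y = y := by
  have hNn : per n = 2 * (n : ℤ) + 2 := rfl
  rw [mem_Icc] at hp
  have b : ∀ a : ℤ, -(2 * (n : ℤ) + 2) < a → a < 2 * (n : ℤ) + 2 → a ≠ 0 → ¬ per n ∣ a := by
    intro a h1 h2 h3
    apply not_dvd h3
    rw [abs_lt, hNn]; exact ⟨h1, h2⟩
  obtain ⟨t, ht⟩ : ∃ t, IsRef n p (k * per n - p) t := by
    apply exists_refB
    apply b <;> omega
  refine ⟨t, ht, ?_, ?_⟩
  · have := (ht.sw.2.1 0).1
    simpa using this
  · intro y hy h1
    rw [mem_Icc] at hy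
    apply ht.sw.2.2
    intro c
    refine ⟨?_, ?_, ?_, ?_⟩
    · intro e
      apply b (y - p) (by omega) (by omega) (by omega)
      exact ⟨c, by linarith⟩
    · intro e
      apply b (y + p) (by omega) (by omega) (by omega)
      exact ⟨k + c, by linarith⟩
    · intro e
      apply b (y + p) (by omega) (by omega) (by omega)
      exact ⟨c, by linarith⟩
    · intro e
      apply b (y - p) (by omega) (by omega) (by omega)
      exact ⟨c - k, by linarith⟩

lemma sum_two {s : Finset ℤ} {p q : ℤ} (hp : p ∈ s) (hq : q ∈ s) (hne : p ≠ q) (f g : ℤ → ℤ)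
    (h : ∀ y ∈ s, y ≠ p → y ≠ q → f y = g y) :
    ∑ y ∈ s, f y + (g p + g q) = ∑ y ∈ s, g y + (f p + f q) := by
  have hq' : q ∈ s.erase p := mem_erase.mpr ⟨hne.symm, hq⟩
  rw [← add_sum_erase s f hp, ← add_sum_erase s g hp, ← add_sum_erase _ f hq',
    ← add_sum_erase _ g hq']
  have : ∑ y ∈ (s.erase p).erase q, f y = ∑ y ∈ (s.erase p).erase q, g y := by
    apply sum_congr rfl
    intro y hy
    rw [mem_erase, mem_erase] at hy
    exact h y hy.2.2 hy.2.1 hy.1
  rw [this]; ring

lemma sum_one {s : Finset ℤ} {p : ℤ} (hp : p ∈ s) (f g : ℤ → ℤ)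
    (h : ∀ y ∈ s, y ≠ p → f y = g y) :
    ∑ y ∈ s, f y + g p = ∑ y ∈ s, g y + f p := by
  rw [← add_sum_erase s f hp, ← add_sum_erase s g hp]
  have : ∑ y ∈ s.erase p, f y = ∑ y ∈ s.erase p, g y := by
    apply sum_congr rfl
    intro y hy
    rw [mem_erase] at hy
    exact h y hy.2 hy.1
  rw [this]; ring

lemma ediv_eq' {N a q : ℤ} (hN : 0 < N) (h1 : q * N ≤ a) (h2 : a < (q + 1) * N) : a / N = q :=
  le_antisymm (Int.lt_add_one_iff.mp (Int.ediv_lt_of_lt_mul hN h2)) (Int.le_ediv_of_mul_le hN h1)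

lemma IsAff.div_neg (h : IsAff n w) {y : ℤ} (hy : y ∈ Icc (1 : ℤ) n) (k : ℤ) :
    (k * per n - w y) / per n = k - 1 - w y / per n := by
  obtain ⟨h1, h2⟩ := h.div_bounds hy
  apply ediv_eq' (per_pos n)
  · have : (k - 1 - w y / per n) * per n = k * per n - (w y / per n * per n + per n) := by ring
    linarith
  · have : (k - 1 - w y / per n + 1) * per n = k * per n - (w y / per n * per n) := by ring
    linarith

/-- The data of a reflection of the first type on the window. -/
structure RA (n : ℕ) (p q s : ℤ) (t : Equiv.Perm ℤ) : Prop where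
  hp : p ∈ Icc (1 : ℤ) n
  hq : q ∈ Icc (1 : ℤ) n
  hpq : p < q
  hs : s = 1 ∨ s = -1
  ref : IsRef n p (s * q) t
  tp : t p = s * q
  tq : t q = s * p
  ty : ∀ y ∈ Icc (1 : ℤ) n, y ≠ p → y ≠ q → t y = y

lemma exists_RA {p q s : ℤ} (hp : p ∈ Icc (1 : ℤ) n) (hq : q ∈ Icc (1 : ℤ) n) (hpq : p < q)
    (hs : s = 1 ∨ s = -1) : ∃ t, RA n p q s t := by
  obtain ⟨t, h1, h2, h3, h4⟩ := winA hp hq hpq.ne hs
  exact ⟨t, hp, hq, hpq, hs, h1, h2, h3, h4⟩

lemma IsAff.map_s (h : IsAff n w) {s : ℤ} (hs : s = 1 ∨ s = -1) (z : ℤ) : w (s * z) = s * w z := by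
  rcases hs with rfl | rfl
  · simp
  · have : (-1 : ℤ) * z = -z := by ring
    rw [this, h.neg]; ring

section
variable {p q s : ℤ}

lemma RA.wp (h : RA n p q s t) (hw : IsAff n w) : (w * t) p = s * w q := by
  rw [Equiv.Perm.mul_apply, h.tp, hw.map_s h.hs]

lemma RA.wq (h : RA n p q s t) (hw : IsAff n w) : (w * t) q = s * w p := by
  rw [Equiv.Perm.mul_apply, h.tq, hw.map_s h.hs]

lemma RA.wy (h : RA n p q s t) (w : Equiv.Perm ℤ) {y : ℤ} (hy : y ∈ Icc (1 : ℤ) n) (h1 : y ≠ p)
    (h2 : y ≠ q) : (w * t) y = w y := by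
  rw [Equiv.Perm.mul_apply, h.ty y hy h1 h2]

lemma RA.InB_mul (h : RA n p q s t) (hw : InB n w) : InB n (w * t) := by
  rw [InB_iff] at hw ⊢
  obtain ⟨ha, he⟩ := hw
  refine ⟨ha.mul h.ref.aff, ?_⟩
  have key := sum_two h.hp h.hq h.hpq.ne (fun y => (w * t) y / per n) (fun y => w y / per n)
    (fun y hy h1 h2 => by rw [h.wy w hy h1 h2])
  simp only [h.wp ha, h.wq ha] at key
  rcases h.hs with rfl | rfl
  · simp only [one_mul] at key
    have e : ∑ y ∈ Icc (1 : ℤ) n, (w * t) y / per n = ∑ y ∈ Icc (1 : ℤ) n, w y / per n := by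
      linarith
    rw [e]; exact he
  · have e1 : -1 * w q / per n = -1 - w q / per n := by
      have := ha.div_neg h.hq 0
      simp only [zero_mul, zero_sub] at this
      rw [← this]; congr 1; ring
    have e2 : -1 * w p / per n = -1 - w p / per n := by
      have := ha.div_neg h.hp 0
      simp only [zero_mul, zero_sub] at this
      rw [← this]; congr 1; ring
    rw [e1, e2] at key
    have e : ∑ y ∈ Icc (1 : ℤ) n, (w * t) y / per n = ∑ y ∈ Icc (1 : ℤ) n, w y / per n
        + 2 * (-1 - w p / per n - w q / per n) := by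
      linarith
    rw [e]
    exact he.add (even_two_mul _)

lemma RA.tvd_mul (h : RA n p q s t) (hw : IsAff n w) :
    tvd n (w * t) + (|w p - p| + |w q - q|) = tvd n w + (|s * w q - p| + |s * w p - q|) := by
  have key := sum_two h.hp h.hq h.hpq.ne (fun y => |(w * t) y - y|) (fun y => |w y - y|)
    (fun y hy h1 h2 => by rw [h.wy w hy h1 h2])
  simp only [h.wp hw, h.wq hw] at key
  exact key

lemma tvd_one (n : ℕ) : tvd n 1 = 0 := by
  unfold tvd
  apply sum_eq_zero
  intro x _
  simp

lemma InB_one (n : ℕ) : InB n 1 := by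
  rw [InB_iff]
  refine ⟨isAff_one n, ?_⟩
  have : ∑ y ∈ Icc (1 : ℤ) n, (1 : Equiv.Perm ℤ) y / per n = 0 := by
    apply sum_eq_zero
    intro y hy
    rw [mem_Icc] at hy
    have hNn : per n = 2 * (n : ℤ) + 2 := rfl
    simp only [Equiv.Perm.coe_one, id_eq]
    apply Int.ediv_eq_zero_of_lt <;> omega
  rw [this]; exact Even.zero

lemma RA.isInB (h : RA n p q s t) : InB n t := by
  have := h.InB_mul (InB_one n)
  rwa [one_mul] at this

lemma RA.tvd_eq (h : RA n p q s t) : tvd n t = |s * q - p| + |s * p - q| := by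
  have := h.tvd_mul (isAff_one n)
  rw [one_mul, tvd_one] at this
  simpa using this

lemma RA.refl (h : RA n p q s t) : t ∈ Refl n := ⟨h.isInB, p, s * q, h.ref.sw⟩

lemma RA.gd_even (h : RA n p q s t) {j : ℤ} (hj : j < p ∨ q ≤ j) (hjn : j ≤ n) :
    gd t j ∧ Even (ng t j) := by
  have hp := mem_Icc.mp h.hp
  have hq := mem_Icc.mp h.hq
  have hpq := h.hpq
  rcases hj with hj | hj
  · have hf : ∀ y ∈ Icc (1 : ℤ) j, t y = y := by
      intro y hy
      rw [mem_Icc] at hy
      exact h.ty y (by rw [mem_Icc]; omega) (by omega) (by omega)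
    constructor
    · intro y hy
      rw [hf y hy]
      rw [mem_Icc] at hy
      rw [abs_le]; omega
    · have : ng t j = 0 := by
        unfold ng
        rw [card_eq_zero, filter_eq_empty_iff]
        intro y hy
        rw [hf y hy]
        rw [mem_Icc] at hy
        omega
      rw [this]; exact Even.zero
  · constructor
    · intro y hy
      have hy' := mem_Icc.mp hy
      by_cases h1 : y = p
      · subst h1
        rw [h.tp]
        rcases h.hs with rfl | rfl <;> rw [abs_le] <;> omega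
      by_cases h2 : y = q
      · subst h2
        rw [h.tq]
        rcases h.hs with rfl | rfl <;> rw [abs_le] <;> omega
      rw [h.ty y (by rw [mem_Icc]; omega) h1 h2, abs_le]; omega
    · rcases h.hs with hs | hs
      · have : ng t j = 0 := by
          unfold ng
          rw [card_eq_zero, filter_eq_empty_iff]
          intro y hy
          rw [mem_Icc] at hy
          by_cases h1 : y = p
          · rw [h1, h.tp, hs]; omega
          by_cases h2 : y = q
          · rw [h2, h.tq, hs]; omega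
          rw [h.ty y (by rw [mem_Icc]; omega) h1 h2]; omega
        rw [this]; exact Even.zero
      · have : ng t j = 2 := by
          unfold ng
          rw [card_eq_two]
          refine ⟨p, q, hpq.ne, ?_⟩
          ext y
          rw [mem_filter, mem_insert, mem_singleton, mem_Icc]
          constructor
          · rintro ⟨hy, hty⟩
            by_contra hcon
            push Not at hcon
            rw [h.ty y (by rw [mem_Icc]; omega) hcon.1 hcon.2] at hty
            omega
          · rintro (rfl | rfl)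
            · rw [h.tp, hs]; omega
            · rw [h.tq, hs]; omega
        rw [this]; decide

end

lemma bad_of_bad (hw : IsAff n w) (ht : IsAff n t) {j : ℤ} (h : gd t j ∧ Even (ng t j))
    (hb : j ∈ bad n (w * t)) : j ∈ bad n w := by
  classical
  unfold bad at *
  rw [mem_filter, mem_Icc] at *
  obtain ⟨hj, hg, ho⟩ := hb
  refine ⟨hj, gd_of_mul hw ht (by omega) h.1 hg, ?_⟩
  have := ng_mul hw ht (show j ≤ n by omega) h.1
  rw [← Nat.not_even_iff_odd] at *
  tauto

/-- What a step should give. -/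
def Step (n : ℕ) (w : Equiv.Perm ℤ) : Prop :=
  ∃ t ∈ Refl n, t * t = 1 ∧ 0 < tvd n t ∧ F n (w * t) + tvd n t ≤ F n w ∧ InB n (w * t)

lemma RA.step {p q s : ℤ} (h : RA n p q s t) (hw : InB n w) (C : Finset ℤ) (hC : C ⊆ bad n w)
    (hCm : C ⊆ Ico p q)
    (hmid : ∀ j, p ≤ j → j < q → gd (w * t) j → Even (ng (w * t) j))
    (hT : |s * w q - p| + |s * w p - q| + (|s * q - p| + |s * p - q|) ≤
      |w p - p| + |w q - q| + 2 * #C) : Step n w := by
  classical
  refine ⟨t, h.refl, h.ref.inv, ?_, ?_, h.InB_mul hw⟩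
  · rw [h.tvd_eq]
    have hpq := h.hpq
    have hp := mem_Icc.mp h.hp
    have h0 : 0 ≤ |s * p - q| := abs_nonneg _
    have h1 : 0 < |s * q - p| := by
      apply abs_pos.mpr
      rcases h.hs with rfl | rfl <;> omega
    omega
  · have h1 := h.tvd_mul hw.1
    have h2 : bad n (w * t) ⊆ bad n w \ C := by
      intro j hj
      have hj' := hj
      unfold bad at hj'
      rw [mem_filter, mem_Icc] at hj'
      have hnm : j < p ∨ q ≤ j := by
        by_contra hcon
        push Not at hcon
        have := hmid j hcon.1 hcon.2 hj'.2.1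
        exact (Nat.not_even_iff_odd.mpr hj'.2.2) this
      rw [mem_sdiff]
      refine ⟨bad_of_bad hw.1 h.ref.aff (h.gd_even hnm (by omega)) hj, ?_⟩
      intro hjC
      have := mem_Ico.mp (hCm hjC)
      omega
    have h3 := card_le_card h2
    rw [card_sdiff_of_subset hC] at h3
    have h4 := card_le_card hC
    have h5 : (#(bad n (w * t)) : ℤ) + #C ≤ #(bad n w) := by omega
    unfold F
    rw [h.tvd_eq]
    linarith

/-- The data of a reflection of the second type on the window. -/
structure RB (n : ℕ) (p k : ℤ) (t : Equiv.Perm ℤ) : Prop where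
  hp : p ∈ Icc (1 : ℤ) n
  hk : Odd k
  ref : IsRef n p (k * per n - p) t
  tp : t p = k * per n - p
  ty : ∀ y ∈ Icc (1 : ℤ) n, y ≠ p → t y = y

lemma exists_RB {p k : ℤ} (hp : p ∈ Icc (1 : ℤ) n) (hk : Odd k) : ∃ t, RB n p k t := by
  obtain ⟨t, h1, h2, h3⟩ := winB hp k
  exact ⟨t, hp, hk, h1, h2, h3⟩

section
variable {p k : ℤ}

lemma RB.wp (h : RB n p k t) (hw : IsAff n w) : (w * t) p = k * per n - w p := by
  rw [Equiv.Perm.mul_apply, h.tp]
  have : k * per n - p = -p + k * per n := by ring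
  rw [this, hw.neg_add_mul]; ring

lemma RB.wy (h : RB n p k t) (w : Equiv.Perm ℤ) {y : ℤ} (hy : y ∈ Icc (1 : ℤ) n) (h1 : y ≠ p) :
    (w * t) y = w y := by
  rw [Equiv.Perm.mul_apply, h.ty y hy h1]

lemma RB.InB_mul (h : RB n p k t) (hw : InB n w) : InB n (w * t) := by
  rw [InB_iff] at hw ⊢
  obtain ⟨ha, he⟩ := hw
  refine ⟨ha.mul h.ref.aff, ?_⟩
  have key := sum_one h.hp (fun y => (w * t) y / per n) (fun y => w y / per n)
    (fun y hy h1 => by rw [h.wy w hy h1])
  simp only [h.wp ha] at key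
  rw [ha.div_neg h.hp k] at key
  obtain ⟨c, hc⟩ := h.hk
  have e : ∑ y ∈ Icc (1 : ℤ) n, (w * t) y / per n = ∑ y ∈ Icc (1 : ℤ) n, w y / per n
      + 2 * (c - w p / per n) := by
    rw [hc] at key
    linarith
  rw [e]
  exact he.add (even_two_mul _)

lemma RB.tvd_mul (h : RB n p k t) (hw : IsAff n w) :
    tvd n (w * t) + |w p - p| = tvd n w + |k * per n - w p - p| := by
  have key := sum_one h.hp (fun y => |(w * t) y - y|) (fun y => |w y - y|)
    (fun y hy h1 => by rw [h.wy w hy h1])
  simp only [h.wp hw] at key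
  exact key

lemma RB.isInB (h : RB n p k t) : InB n t := by
  have := h.InB_mul (InB_one n)
  rwa [one_mul] at this

lemma RB.tvd_eq (h : RB n p k t) : tvd n t = |k * per n - p - p| := by
  have := h.tvd_mul (isAff_one n)
  rw [one_mul, tvd_one] at this
  simpa using this

lemma RB.refl (h : RB n p k t) : t ∈ Refl n := ⟨h.isInB, p, k * per n - p, h.ref.sw⟩

lemma RB.gd_even (h : RB n p k t) {j : ℤ} (hj : j < p) (hjn : j ≤ n) :
    gd t j ∧ Even (ng t j) := by
  have hf : ∀ y ∈ Icc (1 : ℤ) j, t y = y := by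
    intro y hy
    rw [mem_Icc] at hy
    exact h.ty y (by rw [mem_Icc]; omega) (by omega)
  constructor
  · intro y hy
    rw [hf y hy]
    rw [mem_Icc] at hy
    rw [abs_le]; omega
  · have : ng t j = 0 := by
      unfold ng
      rw [card_eq_zero, filter_eq_empty_iff]
      intro y hy
      rw [hf y hy]
      rw [mem_Icc] at hy
      omega
    rw [this]; exact Even.zero

lemma RB.step (h : RB n p k t) (hw : InB n w)
    (hmid : ∀ j, p ≤ j → j ≤ n - 1 → gd (w * t) j → Even (ng (w * t) j))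
    (hT : |k * per n - w p - p| + |k * per n - p - p| ≤ |w p - p|) : Step n w := by
  classical
  refine ⟨t, h.refl, h.ref.inv, ?_, ?_, h.InB_mul hw⟩
  · rw [h.tvd_eq]
    apply abs_pos.mpr
    intro h0
    have := h.ref.sw.1
    apply this; linarith
  · have h1 := h.tvd_mul hw.1
    have h2 : bad n (w * t) ⊆ bad n w := by
      intro j hj
      have hj' := hj
      unfold bad at hj'
      rw [mem_filter, mem_Icc] at hj'
      have hnm : j < p := by
        by_contra hcon
        push Not at hcon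
        have := hmid j hcon hj'.1.2 hj'.2.1
        exact (Nat.not_even_iff_odd.mpr hj'.2.2) this
      exact bad_of_bad hw.1 h.ref.aff (h.gd_even hnm (by omega)) hj
    have h3 := card_le_card h2
    have h5 : (#(bad n (w * t)) : ℤ) ≤ #(bad n w) := by omega
    unfold F
    rw [h.tvd_eq]
    linarith

end

end Pool.Agent.R801.AB
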